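import Pool.Agent.Lib_helper81.KSW.Final

/-!
# The lower bound: choice of the parameters
-/

set_option autoImplicit false

namespace Pool.Agent.Lib_helper81.KSW

open Finset

/-- the table of all answers -/
theorem exists_scheme (k N : ℕ) : Nonempty (Scheme k N (N ^ k) 1 1 (1 / 2)) := by
  classical
  set e : (Fin k → Fin N) ≃ Fin (N ^ k) := finFunctionFinEquiv with he
  refine ⟨{ R := 1
            pos := one_pos
            mem := fun _ F c => if ∀ x, ¬ ∀ i, x ∈ F (e.symm c i) then 1 else 0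
            alg := fun _ q => Alg.probe (e q) fun x => Alg.answer (decide (x = 1))
            within := fun _ q => fun _ => trivial
            correct := ?_ }⟩
  intro F _ q _
  have h : ∀ r : Fin 1, ((Alg.probe (e q) fun x => Alg.answer (decide (x = 1)) :
      Alg (N ^ k) 1).run (fun c => if ∀ x, ¬ ∀ i, x ∈ F (e.symm c i) then 1 else 0) = true ↔
      ∀ x, ¬ ∀ i, x ∈ F (q i)) := by
    intro r
    change (decide ((if ∀ x, ¬ ∀ i, x ∈ F (e.symm (e q) i) then (1 : Fin (2 ^ 1)) else 0) = 1) =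
      true) ↔ _
    rw [Equiv.symm_apply_apply]
    by_cases h : ∀ x, ¬ ∀ i, x ∈ F (q i)
    · rw [if_pos h]
      simp [h]
    · rw [if_neg h]
      have h01 : ¬ (0 : Fin (2 ^ 1)) = 1 := by decide
      exact ⟨fun h' => absurd (of_decide_eq_true h') h01, fun h' => absurd h' h⟩
  have h2 : (univ.filter fun r : Fin 1 => ((Alg.probe (e q) fun x => Alg.answer
      (decide (x = 1)) : Alg (N ^ k) 1).run
        (fun c => if ∀ x, ¬ ∀ i, x ∈ F (e.symm c i) then 1 else 0) = true ↔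
      ∀ x, ¬ ∀ i, x ∈ F (q i))).card = 1 := by
    rw [filter_true_of_mem fun r _ => h r]
    rfl
  rw [h2]
  norm_num

theorem aux1 {K Γ g X : ℝ} (hK0 : 0 ≤ K) (hKΓ : K ≤ Γ ^ 2) (hg0 : 0 ≤ g) (hg : g ≤ Γ)
    (hΓX : Γ ≤ X) (hX : 16 ≤ X) : 16 * K ^ 2 * g ^ 2 ≤ X ^ 7 := by
  have hΓ0 : 0 ≤ Γ := hg0.trans hg
  have h1 : K ≤ X ^ 2 := hKΓ.trans (pow_le_pow_left₀ hΓ0 hΓX 2)
  have h2 : K ^ 2 ≤ (X ^ 2) ^ 2 := pow_le_pow_left₀ hK0 h1 2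
  have h3 : g ^ 2 ≤ X ^ 2 := pow_le_pow_left₀ hg0 (hg.trans hΓX) 2
  have h4 : 16 * K ^ 2 ≤ X * (X ^ 2) ^ 2 := mul_le_mul hX h2 (by positivity) (by linarith)
  calc 16 * K ^ 2 * g ^ 2 ≤ X * (X ^ 2) ^ 2 * X ^ 2 :=
        mul_le_mul h4 h3 (by positivity) (by positivity)
    _ = X ^ 7 := by ring

theorem aux2 {q K Γ g X : ℝ} {k : ℕ} (hq0 : 0 ≤ q) (hqX : 2 * q ≤ X) (hK0 : 0 ≤ K)
    (hKΓ : K ≤ Γ ^ 2) (hg0 : 0 ≤ g) (hg : g ≤ Γ) (hΓX : Γ ≤ X) (hX : 16 ≤ X) :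
    16 * K ^ 2 * (2 * q) ^ k * g ^ 2 ≤ X ^ (7 + k) := by
  have h1 := aux1 hK0 hKΓ hg0 hg hΓX hX
  have h2 : (2 * q) ^ k ≤ X ^ k := pow_le_pow_left₀ (by positivity) hqX k
  calc 16 * K ^ 2 * (2 * q) ^ k * g ^ 2 = 16 * K ^ 2 * g ^ 2 * (2 * q) ^ k := by ring
    _ ≤ X ^ 7 * X ^ k := mul_le_mul h1 h2 (by positivity) (by positivity)
    _ = X ^ (7 + k) := by rw [pow_add]

theorem aux3 {n K q γ P : ℝ} {k : ℕ} (hγ : 0 < γ) (hn : 0 < n)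
    (h : γ ^ 2 / 2 ≤ 8 * K ^ 2 * ((2 * q) ^ k * P / n ^ k)) :
    n ^ k ≤ 16 * K ^ 2 * (2 * q) ^ k * (1 / γ) ^ 2 * P := by
  have hnk : 0 < n ^ k := by positivity
  have h4 : γ ^ 2 / 2 * n ^ k ≤ 8 * K ^ 2 * ((2 * q) ^ k * P) := by
    have h5 : 8 * K ^ 2 * ((2 * q) ^ k * P / n ^ k) =
        8 * K ^ 2 * ((2 * q) ^ k * P) / n ^ k := by ring
    rw [h5, le_div_iff₀ hnk] at h
    exact h
  have h5 : n ^ k = 2 * (1 / γ) ^ 2 * (γ ^ 2 / 2 * n ^ k) := by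
    field_simp
  have h6 : 0 ≤ 2 * (1 / γ) ^ 2 := by positivity
  rw [h5]
  refine (mul_le_mul_of_nonneg_left h4 h6).trans (le_of_eq ?_)
  ring

theorem aux4 {k Γ X : ℝ} (hk : 1 ≤ k) (hΓ : 1 ≤ Γ) (hX : X = 66 * k * Γ) :
    1 ≤ X ∧ 16 ≤ X ∧ Γ ≤ X ∧ 2 * k ≤ X ∧ 2 * (2 * k * Γ) ≤ X := by
  have h1 : 1 ≤ k * Γ := one_le_mul_of_one_le_of_one_le hk hΓ
  have h2 : k ≤ k * Γ := le_mul_of_one_le_right (by linarith) hΓ
  have h3 : Γ ≤ k * Γ := le_mul_of_one_le_left (by linarith) hk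
  have h4 : X = 66 * (k * Γ) := by rw [hX]; ring
  have h5 : 2 * (2 * k * Γ) = 4 * (k * Γ) := by ring
  rw [h5]
  refine ⟨by linarith, by linarith, by linarith, by linarith, by linarith⟩

theorem aux5 {q K γ Γ σ k : ℝ} (hK0 : 0 ≤ K) (hγ : 0 < γ)
    (hk : 1 ≤ k) (hσ : σ = 32 * q * K ^ 2 / γ ^ 2) (hq : q ≤ 2 * k * Γ) (hK : K ≤ Γ ^ 2)
    (hg : 1 / γ ≤ Γ) : σ ≤ 64 * k * Γ ^ 7 := by
  have hg0 : 0 < 1 / γ := by positivity
  have hΓ0 : 0 ≤ Γ := hg0.le.trans hg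
  have h3 : σ = 32 * q * K ^ 2 * (1 / γ) ^ 2 := by
    rw [hσ]
    ring
  rw [h3]
  have h1 : K ^ 2 ≤ (Γ ^ 2) ^ 2 := pow_le_pow_left₀ hK0 hK 2
  have h2 : (1 / γ) ^ 2 ≤ Γ ^ 2 := pow_le_pow_left₀ hg0.le hg 2
  have h4 : 32 * q ≤ 32 * (2 * k * Γ) := by linarith
  have h5 : 32 * q * K ^ 2 ≤ 32 * (2 * k * Γ) * (Γ ^ 2) ^ 2 :=
    mul_le_mul h4 h1 (by positivity) (by positivity)
  calc 32 * q * K ^ 2 * (1 / γ) ^ 2 ≤ 32 * (2 * k * Γ) * (Γ ^ 2) ^ 2 * Γ ^ 2 :=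
        mul_le_mul h5 h2 (by positivity) (by positivity)
    _ = 64 * k * Γ ^ 7 := by ring

/-- the lower bound in terms of `Γ = 2 ^ (w T) (log N + 1) / γ` -/
theorem main_bound {k N S w T : ℕ} {γ : ℝ} (hk : 0 < k) (hS : 0 < S) (hγ : 0 < γ)
    (hγ1 : γ ≤ 1 / 2) (D : Scheme k N S w T γ) :
    (N : ℝ) ^ k ≤ (66 * k * (2 ^ (w * T) * (Nat.log 2 N + 1) / γ)) ^ (7 * k ^ 2 + 2 * k + 7) *
      S ^ ((T + 1) / 2) := by
  set l : ℕ := Nat.log 2 N + 1 with hl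
  set t : ℕ := (T + 1) / 2 with ht
  set Γ : ℝ := 2 ^ (w * T) * (Nat.log 2 N + 1) / γ with hΓ
  set X : ℝ := 66 * k * Γ with hX
  have hk1 : (1 : ℝ) ≤ k := by exact_mod_cast hk
  have hl1 : (1 : ℝ) ≤ l := by
    rw [hl]
    push_cast
    have : (0 : ℝ) ≤ (Nat.log 2 N : ℝ) := Nat.cast_nonneg _
    linarith
  have hlR : (l : ℝ) = Nat.log 2 N + 1 := by
    rw [hl]
    push_cast
    rfl
  have hW1 : (1 : ℝ) ≤ 2 ^ (w * T) := one_le_pow₀ (by norm_num)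
  have hγi : (1 : ℝ) ≤ 1 / γ := by
    rw [le_div_iff₀ hγ]
    linarith
  have hΓeq : Γ = 2 ^ (w * T) * l * (1 / γ) := by
    rw [hΓ, hlR]
    ring
  have hΓW : (2 : ℝ) ^ (w * T) ≤ Γ := by
    rw [hΓeq, mul_assoc]
    exact le_mul_of_one_le_right (by positivity) (one_le_mul_of_one_le_of_one_le hl1 hγi)
  have hΓl : (l : ℝ) ≤ Γ := by
    rw [hΓeq]
    calc (l : ℝ) = 1 * l * 1 := by ring
      _ ≤ 2 ^ (w * T) * l * (1 / γ) := by gcongr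
  have hΓγ : 1 / γ ≤ Γ := by
    rw [hΓeq]
    exact le_mul_of_one_le_left (by positivity) (one_le_mul_of_one_le_of_one_le hW1 hl1)
  have hΓ1 : 1 ≤ Γ := hW1.trans hΓW
  have hΓ0 : 0 < Γ := lt_of_lt_of_le one_pos hΓ1
  obtain ⟨hX1, hX16, hΓX, hkX, hX5⟩ := aux4 hk1 hΓ1 hX
  have hX0 : 0 < X := lt_of_lt_of_le one_pos hX1
  have hSr : (1 : ℝ) ≤ S := by exact_mod_cast hS
  have hP1 : (1 : ℝ) ≤ (S : ℝ) ^ t := one_le_pow₀ hSr
  rcases le_or_gt ((N : ℝ) ^ k) ((S : ℝ) ^ t) with hcase | hcase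
  · refine hcase.trans ?_
    exact le_mul_of_one_le_left (by positivity) (one_le_pow₀ hX1)
  -- the number of steps
  obtain ⟨j, hj1, hj2⟩ : ∃ j, k * l ≤ 2 ^ (j + 1) ∧ 2 ^ (j + 1) ≤ 2 * (k * l) := by
    have hkl : k * l ≠ 0 := by positivity
    refine ⟨Nat.log 2 (k * l), (Nat.lt_pow_succ_log_self (by norm_num) _).le, ?_⟩
    rw [pow_succ, mul_comm]
    exact Nat.mul_le_mul_left 2 (Nat.pow_log_le_self 2 hkl)
  set q : ℕ := 2 ^ (j + 1) with hq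
  have hq0 : 0 < q := by positivity
  have hqR : (0 : ℝ) < q := by exact_mod_cast hq0
  have hqΓ : (q : ℝ) ≤ 2 * k * Γ := by
    have h1 : (q : ℝ) ≤ ((2 * (k * l) : ℕ) : ℝ) := by exact_mod_cast hj2
    push_cast at h1
    calc (q : ℝ) ≤ 2 * (k * l) := h1
      _ ≤ 2 * (k * Γ) := by gcongr
      _ = 2 * k * Γ := by ring
  have hP : S ^ t ≤ 2 ^ 2 ^ (j + 1) := by
    have h1 : (S : ℝ) ^ t < (N : ℝ) ^ k := hcase
    have h2 : S ^ t < N ^ k := by exact_mod_cast h1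
    have h3 : N ≤ 2 ^ l := (Nat.lt_pow_succ_log_self (by norm_num) _).le
    calc S ^ t ≤ N ^ k := h2.le
      _ ≤ (2 ^ l) ^ k := Nat.pow_le_pow_left h3 k
      _ = 2 ^ (k * l) := by rw [← pow_mul, mul_comm]
      _ ≤ 2 ^ 2 ^ (j + 1) := Nat.pow_le_pow_right (by norm_num) hj1
  -- the number of sequences of contents
  set K : ℝ := ((2 : ℝ) ^ w) ^ (t + t) with hK
  have hK1 : 1 ≤ K := one_le_pow₀ (one_le_pow₀ (by norm_num))
  have hKΓ : K ≤ Γ ^ 2 := by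
    have h1 : t + t ≤ T * 2 := by omega
    calc K ≤ ((2 : ℝ) ^ w) ^ (T * 2) := pow_le_pow_right₀ (one_le_pow₀ (by norm_num)) h1
      _ = ((2 : ℝ) ^ (w * T)) ^ 2 := by rw [← pow_mul, ← pow_mul, mul_assoc]
      _ ≤ Γ ^ 2 := pow_le_pow_left₀ (by positivity) hΓW 2
  -- the number of labels
  set σ : ℝ := 32 * q * K ^ 2 / γ ^ 2 with hσ
  have hσ0 : 0 < σ := by positivity
  set s : ℕ := ⌈σ⌉₊ with hs
  have hs0 : 0 < s := Nat.ceil_pos.2 hσ0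
  have hsR : (0 : ℝ) < s := by exact_mod_cast hs0
  have hsX : (s : ℝ) ≤ X ^ 7 := by
    have h1 : (s : ℝ) ≤ σ + 1 := (Nat.ceil_lt_add_one hσ0.le).le
    have h2 : σ ≤ 64 * k * Γ ^ 7 :=
      aux5 (zero_le_one.trans hK1) hγ hk1 hσ hqΓ hKΓ hΓγ
    have h4 : (1 : ℝ) ≤ k * Γ ^ 7 := one_le_mul_of_one_le_of_one_le hk1 (one_le_pow₀ hΓ1)
    have h5 : (s : ℝ) ≤ 66 * k * Γ ^ 7 := by linarith
    refine h5.trans ?_
    rw [hX, mul_pow]
    have h6 : (66 : ℝ) * k ≤ (66 * k) ^ 7 := by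
      refine le_self_pow₀ ?_ (by norm_num)
      linarith
    exact mul_le_mul_of_nonneg_right h6 (by positivity)
  have hsk : (s : ℝ) ^ (k - 1) ≤ X ^ (7 * (k - 1)) := by
    rw [pow_mul]
    exact pow_le_pow_left₀ hsR.le hsX _
  set n : ℕ := N / (k * s ^ (k - 1)) with hn
  have hden : 0 < k * s ^ (k - 1) := by positivity
  have hNn : N < k * s ^ (k - 1) * (n + 1) := Nat.lt_mul_div_succ N hden
  have hNn' : k * s ^ (k - 1) * n ≤ N := Nat.mul_div_le N _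
  rcases lt_or_ge n s with hcase2 | hcase2
  · -- small `N`
    have h1 : N ≤ k * s ^ k := by
      calc N ≤ k * s ^ (k - 1) * (n + 1) := hNn.le
        _ ≤ k * s ^ (k - 1) * s := Nat.mul_le_mul_left _ hcase2
        _ = k * s ^ k := by rw [mul_assoc, ← pow_succ, Nat.sub_add_cancel hk]
    have h2 : (N : ℝ) ≤ k * (s : ℝ) ^ k := by exact_mod_cast h1
    have h3 : (N : ℝ) ≤ X ^ (7 * k + 1) := by
      refine h2.trans ?_
      rw [pow_succ, pow_mul, mul_comm]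
      refine mul_le_mul (pow_le_pow_left₀ hsR.le hsX k) (by linarith) (by positivity)
        (by positivity)
    calc (N : ℝ) ^ k ≤ (X ^ (7 * k + 1)) ^ k := pow_le_pow_left₀ (Nat.cast_nonneg N) h3 k
      _ = X ^ (7 * k ^ 2 + k) := by
          rw [← pow_mul]
          congr 1
          ring
      _ ≤ X ^ (7 * k ^ 2 + 2 * k + 7) := pow_le_pow_right₀ hX1 (by omega)
      _ ≤ X ^ (7 * k ^ 2 + 2 * k + 7) * (S : ℝ) ^ t :=
          le_mul_of_one_le_right (by positivity) hP1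
  -- the main case
  have hn0 : 0 < n := lt_of_lt_of_le hs0 hcase2
  have hnR : (0 : ℝ) < n := by exact_mod_cast hn0
  have hs1 : 1 ≤ s ^ (k - 1) := Nat.one_le_iff_ne_zero.2 (by positivity)
  have hN3 : k * n * s ^ (k - 1) ≤ N := by
    calc k * n * s ^ (k - 1) = k * s ^ (k - 1) * n := by ring
      _ ≤ N := hNn'
  have hN1 : k * n ≤ N := (Nat.le_mul_of_pos_right _ hs1).trans hN3
  have hN2 : s ^ k ≤ N := by
    calc s ^ k = s * s ^ (k - 1) := by rw [← pow_succ', Nat.sub_add_cancel hk]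
      _ ≤ n * s ^ (k - 1) := Nat.mul_le_mul_right _ hcase2
      _ ≤ k * (n * s ^ (k - 1)) := Nat.le_mul_of_pos_left _ hk
      _ = k * n * s ^ (k - 1) := by ring
      _ ≤ N := hN3
  have hcore := core hk hγ hγ1 D hn0 hs0 hS (t := t) (j := j) (by omega) hN1 hN2 hN3 hP
  rw [← hK, ← hq] at hcore
  push_cast at hcore
  have h1 : 8 * K ^ 2 * (2 * q / s) ≤ γ ^ 2 / 2 := by
    have h2 : σ ≤ s := Nat.le_ceil σ
    have h3 : 32 * q * K ^ 2 ≤ s * γ ^ 2 := by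
      rw [hσ, div_le_iff₀ (by positivity)] at h2
      exact h2
    have h4 : 8 * K ^ 2 * (2 * q / s) = (32 * q * K ^ 2) / s / 2 := by ring
    rw [h4]
    have h5 : 32 * q * K ^ 2 / s ≤ γ ^ 2 := by
      rw [div_le_iff₀ hsR]
      linarith
    linarith
  have h2 : γ ^ 2 / 2 ≤ 8 * K ^ 2 * ((2 * q) ^ k * (S : ℝ) ^ t / n ^ k) := by
    rw [mul_add] at hcore
    linarith
  have h3 : (n : ℝ) ^ k ≤ 16 * K ^ 2 * (2 * q) ^ k * (1 / γ) ^ 2 * (S : ℝ) ^ t :=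
    aux3 hγ hnR h2
  have h4 : 16 * K ^ 2 * (2 * q) ^ k * (1 / γ) ^ 2 ≤ X ^ (7 + k) := by
    refine aux2 hqR.le ?_ (zero_le_one.trans hK1) hKΓ (by positivity) hΓγ hΓX hX16
    linarith
  have h5 : (N : ℝ) ≤ X ^ (7 * (k - 1) + 1) * n := by
    have h6 : (N : ℝ) ≤ ((k * s ^ (k - 1) * (n + 1) : ℕ) : ℝ) := by exact_mod_cast hNn.le
    push_cast at h6
    have h7 : (n : ℝ) + 1 ≤ 2 * n := by
      have : (1 : ℝ) ≤ n := by exact_mod_cast hn0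
      linarith
    calc (N : ℝ) ≤ k * (s : ℝ) ^ (k - 1) * (n + 1) := h6
      _ ≤ k * (s : ℝ) ^ (k - 1) * (2 * n) := by gcongr
      _ = 2 * k * (s : ℝ) ^ (k - 1) * n := by ring
      _ ≤ X * X ^ (7 * (k - 1)) * n := by gcongr
      _ = X ^ (7 * (k - 1) + 1) * n := by rw [pow_succ']
  have h6 : (7 * (k - 1) + 1) * k + (7 + k) ≤ 7 * k ^ 2 + 2 * k + 7 := by
    obtain ⟨m, rfl⟩ : ∃ m, k = m + 1 := ⟨k - 1, by omega⟩
    have : m + 1 - 1 = m := by omega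
    rw [this]
    nlinarith
  calc (N : ℝ) ^ k ≤ (X ^ (7 * (k - 1) + 1) * n) ^ k :=
        pow_le_pow_left₀ (Nat.cast_nonneg N) h5 k
    _ = X ^ ((7 * (k - 1) + 1) * k) * (n : ℝ) ^ k := by rw [mul_pow, ← pow_mul]
    _ ≤ X ^ ((7 * (k - 1) + 1) * k) *
        (16 * K ^ 2 * (2 * q) ^ k * (1 / γ) ^ 2 * (S : ℝ) ^ t) := by gcongr
    _ ≤ X ^ ((7 * (k - 1) + 1) * k) * (X ^ (7 + k) * (S : ℝ) ^ t) := by gcongr
    _ = X ^ ((7 * (k - 1) + 1) * k + (7 + k)) * (S : ℝ) ^ t := by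
        rw [← mul_assoc, ← pow_add]
    _ ≤ X ^ (7 * k ^ 2 + 2 * k + 7) * (S : ℝ) ^ t := by
        refine mul_le_mul_of_nonneg_right (pow_le_pow_right₀ hX1 h6) (by positivity)

end Pool.Agent.Lib_helper81.KSW
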