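import Pool.Agent.Lib_helper81.KSW.Scheme

/-!
# The lower bound
-/

set_option autoImplicit false

namespace Pool.Agent.Lib_helper81.KSW

open Finset

/-- power mean inequality for an even exponent -/
theorem power_mean {ι : Type*} [Fintype ι] [Nonempty ι] (F : ι → ℝ) {p : ℕ} (hp : Even p)
    {a : ℝ} (ha : 0 ≤ a) (h : a * Fintype.card ι ≤ ∑ i, F i) :
    a ^ p * Fintype.card ι ≤ ∑ i, F i ^ p := by
  have hc : (0 : ℝ) < Fintype.card ι := by exact_mod_cast Fintype.card_pos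
  have h1 := Real.pow_arith_mean_le_arith_mean_pow_of_even univ
    (fun _ : ι => 1 / (Fintype.card ι : ℝ)) F (fun _ _ => by positivity) (by
      rw [sum_const, card_univ, nsmul_eq_mul, mul_one_div, div_self hc.ne']) hp
  rw [← mul_sum, ← mul_sum] at h1
  have h2 : a ≤ 1 / (Fintype.card ι : ℝ) * ∑ i, F i := by
    rw [one_div, inv_mul_eq_div, le_div_iff₀ hc]
    exact h
  have h3 := (pow_le_pow_left₀ ha h2 p).trans h1
  rw [one_div, inv_mul_eq_div, le_div_iff₀ hc] at h3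
  exact h3

theorem sgn_iff (b b' : Bool) : -sgn b * sgn b' = if (b' = true ↔ b = false) then 1 else -1 := by
  cases b <;> cases b' <;> simp [sgn]

open Classical in
/-- the advantage for a fixed random string -/
theorem exists_string {k N S w T : ℕ} {γ : ℝ} (hk : 0 < k) (D : Scheme k N S w T γ)
    {n s : ℕ} (hN1 : k * n ≤ N) (hN2 : s ^ k ≤ N) (hN3 : k * n * s ^ (k - 1) ≤ N) :
    ∃ r : Fin D.R, 2 * γ * (Fintype.card (Dat k n s) * Fintype.card (Fin k → Fin n)) ≤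
      ∑ d : Dat k n s, ∑ e : Fin k → Fin n,
        -eps d e * sgn ((D.alg r (qry hN1 e)).run (D.mem r (fam hN1 hN2 d))) := by
  have hR : (0 : ℝ) < D.R := by exact_mod_cast D.pos
  have h1 : ∀ (d : Dat k n s) (e : Fin k → Fin n), 2 * γ * D.R ≤
      ∑ r : Fin D.R, -eps d e * sgn ((D.alg r (qry hN1 e)).run (D.mem r (fam hN1 hN2 d))) := by
    intro d e
    have h2 := D.correct (fam hN1 hN2 d) ((fam_card hN1 hN2 d).trans hN3) (qry hN1 e)
      (qry_inj hN1 e)
    have h3 : ∀ r : Fin D.R,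
        -eps d e * sgn ((D.alg r (qry hN1 e)).run (D.mem r (fam hN1 hN2 d))) =
        2 * (if ((D.alg r (qry hN1 e)).run (D.mem r (fam hN1 hN2 d)) = true ↔
          ∀ x, ¬ ∀ i, x ∈ fam hN1 hN2 d (qry hN1 e i)) then (1 : ℝ) else 0) - 1 := by
      intro r
      unfold eps
      rw [sgn_iff]
      have h4 := fam_disj hk hN1 hN2 d e
      by_cases h5 : ((D.alg r (qry hN1 e)).run (D.mem r (fam hN1 hN2 d)) = true ↔
          d.1 (lab d.2 e) = false)
      · rw [if_pos h5, if_pos (h5.trans h4.symm)]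
        norm_num
      · rw [if_neg h5, if_neg fun h6 => h5 (h6.trans h4)]
        norm_num
    simp only [h3]
    rw [sum_sub_distrib, ← mul_sum, sum_boole, sum_const, card_univ, Fintype.card_fin,
      nsmul_eq_mul, mul_one]
    have h6 : ((univ.filter fun r => ((D.alg r (qry hN1 e)).run (D.mem r (fam hN1 hN2 d)) =
        true ↔ ∀ x, ¬ ∀ i, x ∈ fam hN1 hN2 d (qry hN1 e i))).card : ℝ) ≥ (1 / 2 + γ) * D.R := by
      convert h2
    linarith
  have hne : (univ : Finset (Fin D.R)).Nonempty := ⟨⟨0, D.pos⟩, mem_univ _⟩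
  obtain ⟨r, -, hr⟩ := exists_le_of_sum_le hne
    (f := fun _ : Fin D.R => 2 * γ * (Fintype.card (Dat k n s) * Fintype.card (Fin k → Fin n)))
    (g := fun r => ∑ d : Dat k n s, ∑ e : Fin k → Fin n,
        -eps d e * sgn ((D.alg r (qry hN1 e)).run (D.mem r (fam hN1 hN2 d)))) (by
      rw [sum_comm]
      have h2 : ∀ d : Dat k n s, 2 * γ * D.R * Fintype.card (Fin k → Fin n) ≤
          ∑ r : Fin D.R, ∑ e : Fin k → Fin n,
            -eps d e * sgn ((D.alg r (qry hN1 e)).run (D.mem r (fam hN1 hN2 d))) := by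
        intro d
        rw [sum_comm]
        have h3 := sum_le_sum fun (e : Fin k → Fin n) (_ : e ∈ univ) => h1 d e
        rw [sum_const, card_univ, nsmul_eq_mul] at h3
        linarith
      have h3 := sum_le_sum fun (d : Dat k n s) (_ : d ∈ univ) => h2 d
      rw [sum_const, card_univ, nsmul_eq_mul] at h3
      rw [sum_const, card_univ, Fintype.card_fin, nsmul_eq_mul]
      linarith)
  exact ⟨r, hr⟩

/-- the main inequality -/
theorem core {k N S w T : ℕ} {γ : ℝ} (hk : 0 < k) (hγ : 0 < γ) (hγ1 : γ ≤ 1 / 2)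
    (D : Scheme k N S w T γ) {n s t j : ℕ} (hn : 0 < n) (hs : 0 < s) (hS : 0 < S)
    (hT : T ≤ t + t) (hN1 : k * n ≤ N) (hN2 : s ^ k ≤ N) (hN3 : k * n * s ^ (k - 1) ≤ N)
    (hP : S ^ t ≤ 2 ^ 2 ^ (j + 1)) :
    γ ^ 2 ≤ 8 * (((2 : ℝ) ^ w) ^ (t + t)) ^ 2 * (((2 * 2 ^ (j + 1) : ℕ) : ℝ) / s +
      ((2 * 2 ^ (j + 1) : ℕ) : ℝ) ^ k * S ^ t / n ^ k) := by
  classical
  set q : ℕ := 2 ^ (j + 1) with hq
  have hq0 : 0 < q := by positivity
  set Q : ℝ := (n : ℝ) ^ k with hQ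
  set P : ℝ := (S : ℝ) ^ t with hPdef
  set K : ℝ := ((2 : ℝ) ^ w) ^ (t + t) with hK
  have hn' : (0 : ℝ) < n := by exact_mod_cast hn
  have hs' : (0 : ℝ) < s := by exact_mod_cast hs
  have hS' : (0 : ℝ) < S := by exact_mod_cast hS
  have hQ0 : 0 < Q := by positivity
  have hP0 : 0 < P := by positivity
  have hK1 : 1 ≤ K := one_le_pow₀ (one_le_pow₀ (by norm_num))
  have hK0 : 0 < K := lt_of_lt_of_le one_pos hK1
  have hcQ : (Fintype.card (Fin k → Fin n) : ℝ) = Q := by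
    rw [Fintype.card_fun, Fintype.card_fin, Fintype.card_fin, hQ]
    push_cast
    rfl
  have hcP : (Fintype.card (Fin t → Fin S) : ℝ) = P := by
    rw [Fintype.card_fun, Fintype.card_fin, Fintype.card_fin, hPdef]
    push_cast
    rfl
  have hcK : (Fintype.card (Fin (t + t) → Fin (2 ^ w)) : ℝ) = K := by
    rw [Fintype.card_fun, Fintype.card_fin, Fintype.card_fin, hK]
    push_cast
    rfl
  set τ : ℝ := ((2 * q : ℕ) : ℝ) / s + ((2 * q : ℕ) : ℝ) ^ k / (Q / P) with hτ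
  have hτ0 : 0 < τ := by
    have h1 : (0 : ℝ) < ((2 * q : ℕ) : ℝ) := by exact_mod_cast (by omega)
    positivity
  have hτeq : ((2 * q : ℕ) : ℝ) / s + ((2 * q : ℕ) : ℝ) ^ k * P / Q = τ := by
    rw [hτ, div_div_eq_mul_div]
  rw [hτeq]
  rcases le_or_gt 1 τ with hτ1 | hτ1
  · have h1 : γ ^ 2 ≤ 1 := by nlinarith
    have h2 : (1 : ℝ) ≤ K ^ 2 := one_le_pow₀ hK1
    have h3 : (1 : ℝ) * 1 ≤ K ^ 2 * τ := mul_le_mul h2 hτ1 zero_le_one (by positivity)
    linarith
  -- a random string with advantage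
  obtain ⟨r, hr⟩ := exists_string hk D hN1 hN2 hN3
  rw [hcQ] at hr
  set c0 : Fin S := ⟨0, hS⟩ with hc0
  set alg : (Fin k → Fin n) → Alg S w := fun e => D.alg r (qry hN1 e) with halg
  have hwith : ∀ e, (alg e).Within (t + t) := fun e => within_mono hT _ (D.within r _)
  set M : Dat k n s → Fin S → Fin (2 ^ w) := fun d => D.mem r (fam hN1 hN2 d) with hM
  let L : (Fin (t + t) → Fin (2 ^ w)) → (Fin k → Fin n) → Fin t → Fin S :=
    fun v e i => addr c0 (t + t) (alg e) v (Fin.castAdd t i)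
  let R : (Fin (t + t) → Fin (2 ^ w)) → (Fin k → Fin n) → Fin t → Fin S :=
    fun v e i => addr c0 (t + t) (alg e) v (Fin.natAdd t i)
  let h : (Fin (t + t) → Fin (2 ^ w)) → (Fin k → Fin n) → ℝ :=
    fun v e => -sgn (out (t + t) (alg e) v)
  let u : (Fin (t + t) → Fin (2 ^ w)) → Dat k n s → (Fin t → Fin S) → ℝ :=
    fun v d b => ∏ i : Fin t, if M d (b i) = v (Fin.castAdd t i) then (1 : ℝ) else 0
  let u' : (Fin (t + t) → Fin (2 ^ w)) → Dat k n s → (Fin t → Fin S) → ℝ :=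
    fun v d b => ∏ i : Fin t, if M d (b i) = v (Fin.natAdd t i) then (1 : ℝ) else 0
  have hprod : ∀ (f : Fin t → Prop) [∀ i, Decidable (f i)],
      |∏ i : Fin t, if f i then (1 : ℝ) else 0| ≤ 1 := by
    intro f _
    rw [abs_prod]
    refine prod_le_one (fun _ _ => abs_nonneg _) fun i _ => ?_
    split_ifs <;> simp
  have hu : ∀ v d b, |u v d b| ≤ 1 := fun v d b => hprod _
  have hu' : ∀ v d b, |u' v d b| ≤ 1 := fun v d b => hprod _
  have hh : ∀ v e, |h v e| ≤ 1 := fun v e => by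
    change |-sgn _| ≤ 1
    rw [abs_neg, abs_sgn]
  set F : Dat k n s → (Fin (t + t) → Fin (2 ^ w)) → ℝ :=
    fun d v => ∑ e, (h v e * eps d e) * (u v d (L v e) * u' v d (R v e)) with hF
  have hsumF : ∀ d, ∑ v, F d v = ∑ e : Fin k → Fin n,
      -eps d e * sgn ((alg e).run (M d)) := by
    intro d
    simp only [hF]
    rw [sum_comm]
    refine sum_congr rfl fun e _ => ?_
    rw [decomp c0 (M d) t (alg e) (hwith e), mul_sum]
    refine sum_congr rfl fun v _ => ?_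
    change (-sgn (out (t + t) (alg e) v) * eps d e) * _ = _
    ring
  have hsum : ∑ x : Dat k n s × (Fin (t + t) → Fin (2 ^ w)), F x.1 x.2 =
      ∑ d : Dat k n s, ∑ e : Fin k → Fin n, -eps d e * sgn ((alg e).run (M d)) := by
    rw [Fintype.sum_prod_type]
    exact sum_congr rfl fun d _ => hsumF d
  have : Nonempty (Fin s) := ⟨⟨0, hs⟩⟩
  have : Nonempty (Fin (2 ^ w)) := ⟨⟨0, by positivity⟩⟩
  have hcD : (0 : ℝ) < Fintype.card (Dat k n s) := by exact_mod_cast Fintype.card_pos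
  have hmean := power_mean (fun x : Dat k n s × (Fin (t + t) → Fin (2 ^ w)) => F x.1 x.2)
    (p := 2 * q) ⟨q, by ring⟩ (a := 2 * γ * Q / K) (by positivity) (by
      rw [Fintype.card_prod, Nat.cast_mul, hcK, hsum]
      have h1 : 2 * γ * Q / K * (Fintype.card (Dat k n s) * K) =
          2 * γ * (Fintype.card (Dat k n s) * Q) := by
        field_simp
      rw [h1]
      exact hr)
  rw [Fintype.card_prod, Nat.cast_mul, hcK, Fintype.sum_prod_type_right] at hmean
  -- the moments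
  set θ : ℝ := τ⁻¹ with hθ
  have hθ1 : 1 ≤ θ := (one_le_inv₀ hτ0).2 hτ1.le
  have hb : 1 + (θ - 1) * τ ≤ 2 := by
    have h1 : θ * τ = 1 := inv_mul_cancel₀ hτ0.ne'
    linarith
  have hb0 : 0 ≤ 1 + (θ - 1) * τ := by
    have h1 : 0 ≤ (θ - 1) * τ := mul_nonneg (sub_nonneg.2 hθ1) hτ0.le
    linarith
  have hD0 : 0 < Q / P := div_pos hQ0 hP0
  have hmom : ∀ v, ∑ d, F d v ^ (2 * q) ≤
      (2 * Q) ^ (2 * q) * (P * 2 ^ (2 * q) * τ ^ q * Fintype.card (Dat k n s)) := by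
    intro v
    have h1 : ∀ d, F d v ^ (2 * q) ≤ (2 * Q) ^ (2 * q) * ∑ z, (h v z * eps d z) *
        cc (GG (L v) (R v) (Q / P)) z (fun e => h v e * eps d e) (2 * q - 1) z := by
      intro d
      have h2 := bilin (L v) (R v) hD0 (fun e => h v e * eps d e) (u v d) (hu v d)
        (u' v d) (hu' v d) j
      rw [hcQ, hcP, ← hq] at h2
      have h3 : Q + P * (Q / P) = 2 * Q := by
        field_simp
        ring
      rw [h3, ← pow_two, ← pow_mul] at h2
      exact h2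
    refine (sum_le_sum fun d _ => h1 d).trans ?_
    rw [← mul_sum]
    refine mul_le_mul_of_nonneg_left ?_ (by positivity)
    have h2 := walk_bound (s := s) hθ1 hs hD0 hq0 (GG (L v) (R v) (Q / P))
      (GG_step (L v) (R v) hD0) (P := P) (om (L v) (Q / P))
      (GG_close (L v) (R v) hD0) ((sum_om (L v) hD0).trans (le_of_eq hcP)) (h v) (hh v)
    refine h2.trans ?_
    rw [← hτ]
    have h3 : (1 + (θ - 1) * τ) ^ (2 * q - 1) ≤ 2 ^ (2 * q) :=
      (pow_le_pow_left₀ hb0 hb _).trans (pow_le_pow_right₀ (by norm_num) (by omega))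
    have h4 : θ⁻¹ ^ q = τ ^ q := by rw [hθ, inv_inv]
    rw [h4]
    have h5 : P * (1 + (θ - 1) * τ) ^ (2 * q - 1) ≤ P * 2 ^ (2 * q) :=
      mul_le_mul_of_nonneg_left h3 hP0.le
    have h6 : 0 ≤ τ ^ q := by positivity
    exact mul_le_mul_of_nonneg_right (mul_le_mul_of_nonneg_right h5 h6) hcD.le
  have hfin : (2 * γ * Q / K) ^ (2 * q) * (Fintype.card (Dat k n s) * K) ≤
      K * ((2 * Q) ^ (2 * q) * (P * 2 ^ (2 * q) * τ ^ q * Fintype.card (Dat k n s))) := by
    refine hmean.trans ?_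
    refine (sum_le_sum fun v _ => hmom v).trans (le_of_eq ?_)
    rw [sum_const, card_univ, nsmul_eq_mul, hcK]
  have h1 : (γ / K) ^ (2 * q) ≤ P * 2 ^ (2 * q) * τ ^ q := by
    have h2 : (2 * γ * Q / K) ^ (2 * q) = (2 * Q) ^ (2 * q) * (γ / K) ^ (2 * q) := by
      rw [← mul_pow]
      congr 1
      ring
    rw [h2] at hfin
    have h3 : 0 < (2 * Q) ^ (2 * q) * (Fintype.card (Dat k n s) * K) := by positivity
    refine le_of_mul_le_mul_left ?_ h3
    linarith
  have h2 : ((γ / K) ^ 2) ^ q ≤ (8 * τ) ^ q := by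
    rw [← pow_mul]
    refine h1.trans ?_
    have h3 : P ≤ 2 ^ q := by
      have h4 : ((S ^ t : ℕ) : ℝ) ≤ ((2 ^ q : ℕ) : ℝ) := by exact_mod_cast hP
      push_cast at h4
      exact h4
    calc P * 2 ^ (2 * q) * τ ^ q ≤ 2 ^ q * 2 ^ (2 * q) * τ ^ q := by gcongr
      _ = (8 * τ) ^ q := by
          rw [pow_mul, ← mul_pow, ← mul_pow]
          norm_num
  have h3 : (γ / K) ^ 2 ≤ 8 * τ := le_of_pow_le_pow_left₀ hq0.ne' (by positivity) h2
  rw [div_pow, div_le_iff₀ (by positivity)] at h3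
  linarith

end Pool.Agent.Lib_helper81.KSW
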