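import Pool.Agent.Lib_helper81.KSW.Walk

/-!
# Bilinear forms and closed walks
-/

set_option autoImplicit false

namespace Pool.Agent.Lib_helper81.KSW

open Finset Matrix

/-! ### linear algebra -/

section Lin

variable {A E : Type*} [Fintype A] [Fintype E] [DecidableEq A] [DecidableEq E]

omit [DecidableEq A] in
theorem dot_sq_le (x y : A → ℝ) : (x ⬝ᵥ y) ^ 2 ≤ (x ⬝ᵥ x) * (y ⬝ᵥ y) := by
  have h := sum_mul_sq_le_sq_mul_sq univ x y
  simp only [dotProduct]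
  simpa [pow_two] using h

omit [DecidableEq A] in
theorem dot_self_nonneg (x : A → ℝ) : 0 ≤ x ⬝ᵥ x :=
  sum_nonneg fun _ _ => mul_self_nonneg _

omit [DecidableEq A] in
theorem dot_symm (B : Matrix A A ℝ) (hB : Bᵀ = B) (x y : A → ℝ) :
    x ⬝ᵥ (B *ᵥ y) = (B *ᵥ x) ⬝ᵥ y := by
  rw [dotProduct_mulVec, ← mulVec_transpose, hB]

theorem transpose_pow_eq (B : Matrix A A ℝ) (hB : Bᵀ = B) (r : ℕ) : (B ^ r)ᵀ = B ^ r := by
  rw [transpose_pow, hB]

theorem dot_pow_two (B : Matrix A A ℝ) (hB : Bᵀ = B) (r : ℕ) (x : A → ℝ) :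
    x ⬝ᵥ (B ^ (2 * r) *ᵥ x) = (B ^ r *ᵥ x) ⬝ᵥ (B ^ r *ᵥ x) := by
  rw [two_mul, pow_add, ← mulVec_mulVec, dot_symm _ (transpose_pow_eq B hB r)]

theorem pow_ineq (B : Matrix A A ℝ) (hB : Bᵀ = B) (x : A → ℝ) (h0 : 0 ≤ x ⬝ᵥ (B *ᵥ x)) (j : ℕ) :
    (x ⬝ᵥ (B *ᵥ x)) ^ 2 ^ j ≤ (x ⬝ᵥ x) ^ (2 ^ j - 1) * (x ⬝ᵥ (B ^ 2 ^ j *ᵥ x)) := by
  induction j with
  | zero => simp
  | succ j ih =>
    have hx := dot_self_nonneg x
    have h1 : (x ⬝ᵥ (B ^ 2 ^ j *ᵥ x)) ^ 2 ≤ (x ⬝ᵥ x) * (x ⬝ᵥ (B ^ 2 ^ (j + 1) *ᵥ x)) := by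
      rw [pow_succ 2 j, mul_comm (2 ^ j) 2, dot_pow_two B hB]
      exact dot_sq_le _ _
    have h2 : ((x ⬝ᵥ (B *ᵥ x)) ^ 2 ^ j) ^ 2 ≤
        ((x ⬝ᵥ x) ^ (2 ^ j - 1) * (x ⬝ᵥ (B ^ 2 ^ j *ᵥ x))) ^ 2 :=
      pow_le_pow_left₀ (pow_nonneg h0 _) ih 2
    have h3 : (x ⬝ᵥ (B *ᵥ x)) ^ 2 ^ (j + 1) = ((x ⬝ᵥ (B *ᵥ x)) ^ 2 ^ j) ^ 2 := by
      rw [← pow_mul, pow_succ]
    rw [h3]
    refine h2.trans ?_
    rw [mul_pow]
    calc ((x ⬝ᵥ x) ^ (2 ^ j - 1)) ^ 2 * (x ⬝ᵥ (B ^ 2 ^ j *ᵥ x)) ^ 2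
        ≤ ((x ⬝ᵥ x) ^ (2 ^ j - 1)) ^ 2 * ((x ⬝ᵥ x) * (x ⬝ᵥ (B ^ 2 ^ (j + 1) *ᵥ x))) :=
          mul_le_mul_of_nonneg_left h1 (by positivity)
      _ = (x ⬝ᵥ x) ^ (2 ^ (j + 1) - 1) * (x ⬝ᵥ (B ^ 2 ^ (j + 1) *ᵥ x)) := by
          have h4 : 2 ^ (j + 1) - 1 = (2 ^ j - 1) * 2 + 1 := by
            have := Nat.one_le_two_pow (n := j)
            omega
          rw [h4, pow_succ (x ⬝ᵥ x) ((2 ^ j - 1) * 2), pow_mul]
          ring

omit [DecidableEq A] in
theorem mulVec_sq_le (C : Matrix A A ℝ) (x : A → ℝ) :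
    (C *ᵥ x) ⬝ᵥ (C *ᵥ x) ≤ (x ⬝ᵥ x) * (C * Cᵀ).trace := by
  have h1 : ∀ a, (C *ᵥ x) a * (C *ᵥ x) a ≤ (x ⬝ᵥ x) * (C * Cᵀ) a a := by
    intro a
    have h2 := dot_sq_le (C a) x
    have h3 : (C *ᵥ x) a = C a ⬝ᵥ x := rfl
    have h4 : (C * Cᵀ) a a = C a ⬝ᵥ C a := rfl
    rw [h3, h4, ← pow_two, mul_comm]
    exact h2
  unfold dotProduct trace
  rw [mul_sum]
  exact sum_le_sum fun a _ => h1 a

theorem pow_le_trace (B : Matrix A A ℝ) (hB : Bᵀ = B) (x : A → ℝ) (h0 : 0 ≤ x ⬝ᵥ (B *ᵥ x))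
    (j : ℕ) : (x ⬝ᵥ (B *ᵥ x)) ^ 2 ^ (j + 1) ≤
      (x ⬝ᵥ x) ^ 2 ^ (j + 1) * (B ^ 2 ^ (j + 1)).trace := by
  have hx := dot_self_nonneg x
  refine (pow_ineq B hB x h0 (j + 1)).trans ?_
  have h1 : x ⬝ᵥ (B ^ 2 ^ (j + 1) *ᵥ x) ≤ (x ⬝ᵥ x) * (B ^ 2 ^ (j + 1)).trace := by
    rw [pow_succ 2 j, mul_comm (2 ^ j) 2, dot_pow_two B hB]
    refine (mulVec_sq_le _ _).trans (le_of_eq ?_)
    rw [transpose_pow_eq B hB, ← pow_add, ← two_mul]
  refine (mul_le_mul_of_nonneg_left h1 (pow_nonneg hx _)).trans (le_of_eq ?_)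
  rw [← mul_assoc, ← pow_succ]
  congr 2
  have := Nat.one_le_two_pow (n := j + 1)
  omega

theorem pow_mul_comm' (P : Matrix A E ℝ) (Q : Matrix E A ℝ) (m : ℕ) :
    (P * Q) ^ (m + 1) = P * ((Q * P) ^ m * Q) := by
  induction m with
  | zero => simp
  | succ m ih =>
    rw [pow_succ, ih, pow_succ (Q * P)]
    simp only [Matrix.mul_assoc]

theorem trace_pow_comm (P : Matrix A E ℝ) (Q : Matrix E A ℝ) (m : ℕ) :
    ((P * Q) ^ (m + 1)).trace = ((Q * P) ^ (m + 1)).trace := by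
  rw [pow_mul_comm', Matrix.trace_mul_comm, pow_succ, Matrix.mul_assoc]

end Lin

/-! ### incidence matrices -/

section Inc

variable {E A : Type*} [Fintype E] [DecidableEq E] [Fintype A] [DecidableEq A]

/-- degree plus `D` -/
noncomputable def dg (L : E → A) (D : ℝ) (a : A) : ℝ := ((univ.filter fun e => L e = a).card : ℝ) + D

omit [Fintype A] [DecidableEq E] in
theorem dg_pos (L : E → A) {D : ℝ} (hD : 0 < D) (a : A) : 0 < dg L D a := by
  unfold dg
  positivity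

omit [DecidableEq E] in
theorem sum_dg (L : E → A) (D : ℝ) :
    ∑ a, dg L D a = Fintype.card E + Fintype.card A * D := by
  unfold dg
  rw [sum_add_distrib, sum_const, card_univ, nsmul_eq_mul]
  congr 1
  rw [← Nat.cast_sum]
  congr 1
  have h := card_eq_sum_card_fiberwise (f := L) (s := (univ : Finset E)) (t := univ)
    (fun _ _ => mem_univ _)
  rw [card_univ] at h
  exact h.symm

/-- normalized incidence matrix -/
noncomputable def inc (L : E → A) (D : ℝ) : Matrix E A ℝ :=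
  fun e a => if L e = a then 1 / √(dg L D a) else 0

/-- the Gram matrix -/
noncomputable def gram (L : E → A) (D : ℝ) : Matrix E E ℝ :=
  fun e e' => if L e = L e' then 1 / dg L D (L e) else 0

omit [DecidableEq E] in
theorem inc_gram (L : E → A) {D : ℝ} (hD : 0 < D) : inc L D * (inc L D)ᵀ = gram L D := by
  ext e e'
  rw [mul_apply]
  change ∑ a, (if L e = a then 1 / √(dg L D a) else 0) *
    (if L e' = a then 1 / √(dg L D a) else 0) = if L e = L e' then 1 / dg L D (L e) else 0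
  rw [sum_eq_single (L e)]
  · rw [if_pos rfl]
    by_cases h : L e = L e'
    · rw [if_pos h, if_pos h.symm, div_mul_div_comm, one_mul,
        Real.mul_self_sqrt (dg_pos L hD _).le]
    · rw [if_neg h, if_neg fun h' => h h'.symm, mul_zero]
  · intro a _ ha
    rw [if_neg fun h => ha h.symm, zero_mul]
  · intro h
    exact absurd (mem_univ _) h

/-- rescaled vector -/
noncomputable def sc (L : E → A) (D : ℝ) (u : A → ℝ) : A → ℝ := fun a => √(dg L D a) * u a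

omit [DecidableEq E] in
theorem inc_sc (L : E → A) {D : ℝ} (hD : 0 < D) (u : A → ℝ) (e : E) :
    (inc L D *ᵥ sc L D u) e = u (L e) := by
  unfold inc sc mulVec dotProduct
  simp only
  rw [sum_eq_single (L e)]
  · rw [if_pos rfl, ← mul_assoc, one_div, inv_mul_cancel₀, one_mul]
    exact (Real.sqrt_pos.2 (dg_pos L hD _)).ne'
  · intro a _ ha
    rw [if_neg fun h => ha h.symm, zero_mul]
  · intro h
    exact absurd (mem_univ _) h

omit [DecidableEq E] in
theorem sc_sq (L : E → A) {D : ℝ} (hD : 0 < D) (u : A → ℝ) (hu : ∀ a, |u a| ≤ 1) :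
    sc L D u ⬝ᵥ sc L D u ≤ Fintype.card E + Fintype.card A * D := by
  rw [← sum_dg L D]
  unfold sc dotProduct
  refine sum_le_sum fun a _ => ?_
  have h1 := dg_pos L hD a
  have h2 : √(dg L D a) * √(dg L D a) = dg L D a := Real.mul_self_sqrt h1.le
  have h3 : u a * u a ≤ 1 := by
    have h4 := sq_abs (u a)
    have h5 := abs_nonneg (u a)
    have h6 := hu a
    nlinarith
  calc √(dg L D a) * u a * (√(dg L D a) * u a) =
        (√(dg L D a) * √(dg L D a)) * (u a * u a) := by ring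
    _ = dg L D a * (u a * u a) := by rw [h2]
    _ ≤ dg L D a * 1 := mul_le_mul_of_nonneg_left h3 h1.le
    _ = dg L D a := mul_one _

end Inc

section Main

variable {k n : ℕ} {A B : Type*} [Fintype A] [DecidableEq A] [Fintype B] [DecidableEq B]

/-- the weights of the steps of the walk -/
noncomputable def GG (L : (Fin k → Fin n) → A) (R : (Fin k → Fin n) → B) (D : ℝ) (m : ℕ)
    (e e' : Fin k → Fin n) : ℝ := if Even m then gram L D e e' else gram R D e e'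

omit [Fintype A] in
theorem gram_step (L : (Fin k → Fin n) → A) {D : ℝ} (hD : 0 < D) (e : Fin k → Fin n) :
    StepW D (gram L D e) := by
  have hpos := dg_pos L hD (L e)
  refine ⟨fun e' => ?_, ?_, fun e' => ?_⟩
  · unfold gram
    split_ifs <;> positivity
  · unfold gram
    rw [← sum_filter, sum_const, nsmul_eq_mul, mul_one_div, div_le_one hpos]
    unfold dg
    have h1 : (univ.filter fun a => L e = L a) = univ.filter fun a => L a = L e := by
      ext a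
      simp only [mem_filter]
      exact and_congr_right fun _ => eq_comm
    rw [h1]
    linarith
  · unfold gram
    split_ifs
    · refine one_div_le_one_div_of_le hD ?_
      unfold dg
      have : (0 : ℝ) ≤ ((univ.filter fun e' => L e' = L e).card : ℝ) := Nat.cast_nonneg _
      linarith
    · positivity

theorem GG_step (L : (Fin k → Fin n) → A) (R : (Fin k → Fin n) → B) {D : ℝ} (hD : 0 < D)
    (m : ℕ) (e : Fin k → Fin n) : StepW D (GG L R D m e) := by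
  by_cases hm : Even m
  · have h1 : GG L R D m e = gram L D e := by
      funext e'
      exact if_pos hm
    rw [h1]
    exact gram_step L hD e
  · have h1 : GG L R D m e = gram R D e := by
      funext e'
      exact if_neg hm
    rw [h1]
    exact gram_step R hD e

/-- the closing weight -/
noncomputable def om (L : (Fin k → Fin n) → A) (D : ℝ) (z : Fin k → Fin n) : ℝ :=
  1 / dg L D (L z)

omit [Fintype A] [Fintype B] in
theorem GG_close (L : (Fin k → Fin n) → A) (R : (Fin k → Fin n) → B) {D : ℝ} (hD : 0 < D)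
    (e z : Fin k → Fin n) : GG L R D 0 e z ≤ om L D z := by
  have hpos := dg_pos L hD (L z)
  unfold GG gram om
  rw [if_pos (by decide)]
  split_ifs with h
  · rw [h]
  · positivity

theorem sum_om (L : (Fin k → Fin n) → A) {D : ℝ} (hD : 0 < D) :
    ∑ z, om L D z ≤ Fintype.card A := by
  have h1 : ∑ z, om L D z = ∑ a, ((univ.filter fun e => L e = a).card : ℝ) * (1 / dg L D a) := by
    unfold om
    rw [← sum_fiberwise univ L fun z => 1 / dg L D (L z)]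
    refine sum_congr rfl fun a _ => ?_
    rw [sum_congr rfl (g := fun _ => 1 / dg L D a) fun z hz => by rw [(mem_filter.1 hz).2],
      sum_const, nsmul_eq_mul]
  rw [h1]
  have h2 : ∀ a, ((univ.filter fun e => L e = a).card : ℝ) * (1 / dg L D a) ≤ 1 := by
    intro a
    rw [mul_one_div, div_le_one (dg_pos L hD a)]
    unfold dg
    linarith
  refine (sum_le_sum fun a _ => h2 a).trans (le_of_eq ?_)
  simp

/-- the matrices of the walk sums -/
noncomputable def CM (G : ℕ → Matrix (Fin k → Fin n) (Fin k → Fin n) ℝ)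
    (y : (Fin k → Fin n) → ℝ) : ℕ → Matrix (Fin k → Fin n) (Fin k → Fin n) ℝ
  | 0 => G 0
  | m + 1 => G (m + 1) * (diagonal y * CM G y m)

theorem cc_eq (G : ℕ → Matrix (Fin k → Fin n) (Fin k → Fin n) ℝ)
    (y : (Fin k → Fin n) → ℝ) (z : Fin k → Fin n) (m : ℕ) :
    ∀ e, cc (fun m e e' => G m e e') z y m e = CM G y m e z := by
  induction m with
  | zero => intro e; rfl
  | succ m ih =>
    intro e
    rw [cc, CM, mul_apply]
    refine sum_congr rfl fun e' _ => ?_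
    rw [ih, diagonal_mul]

theorem CM_odd (KL KR : Matrix (Fin k → Fin n) (Fin k → Fin n) ℝ) (y : (Fin k → Fin n) → ℝ)
    (j : ℕ) : diagonal y * CM (fun m => if Even m then KL else KR) y (2 * j + 1) =
      (diagonal y * KR * diagonal y * KL) ^ (j + 1) := by
  induction j with
  | zero =>
    have h0 : CM (fun m => if Even m then KL else KR) y 0 = KL := by
      rw [CM, if_pos (by decide)]
    rw [Nat.mul_zero, Nat.zero_add, CM, h0, if_neg (by decide), pow_one]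
    simp only [Matrix.mul_assoc]
  | succ j ih =>
    have e1 : 2 * (j + 1) + 1 = (2 * j + 1 + 1) + 1 := by ring
    have h1 : ¬ Even (2 * j + 1 + 1 + 1) := by
      rw [Nat.even_add_one, not_not]
      exact ⟨j + 1, by ring⟩
    have h2 : Even (2 * j + 1 + 1) := ⟨j + 1, by ring⟩
    rw [e1, CM, if_neg h1, CM, if_pos h2, ih, pow_succ' _ (j + 1)]
    simp only [Matrix.mul_assoc]

/-- the bilinear form and the walk sums -/
theorem bilin (L : (Fin k → Fin n) → A) (R : (Fin k → Fin n) → B) {D : ℝ} (hD : 0 < D)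
    (y : (Fin k → Fin n) → ℝ) (u : A → ℝ) (hu : ∀ a, |u a| ≤ 1) (u' : B → ℝ)
    (hu' : ∀ a, |u' a| ≤ 1) (j : ℕ) :
    (∑ e, y e * (u (L e) * u' (R e))) ^ (2 * 2 ^ (j + 1)) ≤
      ((Fintype.card (Fin k → Fin n) + Fintype.card A * D) *
        (Fintype.card (Fin k → Fin n) + Fintype.card B * D)) ^ 2 ^ (j + 1) *
      ∑ z, y z * cc (GG L R D) z y (2 * 2 ^ (j + 1) - 1) z := by
  set Φ := inc L D with hΦ
  set Ψ := inc R D with hΨ
  set Y : Matrix (Fin k → Fin n) (Fin k → Fin n) ℝ := diagonal y with hY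
  set M : Matrix A B ℝ := Φᵀ * (Y * Ψ) with hM
  set x := sc L D u with hx
  set x' := sc R D u' with hx'
  set S : Matrix A A ℝ := M * Mᵀ with hS
  have hST : Sᵀ = S := by
    rw [hS, transpose_mul, transpose_transpose]
  have hF : ∑ e, y e * (u (L e) * u' (R e)) = (Mᵀ *ᵥ x) ⬝ᵥ x' := by
    rw [mulVec_transpose, ← dotProduct_mulVec, hM, ← mulVec_mulVec, ← mulVec_mulVec,
      dotProduct_mulVec, vecMul_transpose]
    unfold dotProduct
    refine sum_congr rfl fun e _ => ?_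
    rw [hY, mulVec_diagonal, hx, hx', hΦ, hΨ, inc_sc L hD, inc_sc R hD]
    ring
  have hq : (Mᵀ *ᵥ x) ⬝ᵥ (Mᵀ *ᵥ x) = x ⬝ᵥ (S *ᵥ x) := by
    rw [hS, ← mulVec_mulVec, mulVec_transpose, ← dotProduct_mulVec]
  have h0 : 0 ≤ x ⬝ᵥ (S *ᵥ x) := by
    rw [← hq]
    exact dot_self_nonneg _
  have hxx : x ⬝ᵥ x ≤ Fintype.card (Fin k → Fin n) + Fintype.card A * D := sc_sq L hD u hu
  have hxx' : x' ⬝ᵥ x' ≤ Fintype.card (Fin k → Fin n) + Fintype.card B * D := sc_sq R hD u' hu'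
  have htr : (S ^ 2 ^ (j + 1)).trace = ∑ z, y z * cc (GG L R D) z y (2 * 2 ^ (j + 1) - 1) z := by
    obtain ⟨r, hr⟩ : ∃ r, 2 ^ (j + 1) = r + 1 :=
      ⟨2 ^ (j + 1) - 1, by have := Nat.one_le_two_pow (n := j + 1); omega⟩
    have e1 : 2 * 2 ^ (j + 1) - 1 = 2 * r + 1 := by omega
    rw [e1, hr]
    have hS2 : S = Φᵀ * (Y * gram R D * Y * Φ) := by
      rw [hS, hM, transpose_mul, transpose_mul, transpose_transpose, hY, diagonal_transpose,
        ← inc_gram R hD, ← hΨ]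
      simp only [Matrix.mul_assoc]
    have h1 : Y * gram R D * Y * Φ * Φᵀ = Y * gram R D * Y * gram L D := by
      rw [Matrix.mul_assoc _ Φ Φᵀ, hΦ, inc_gram L hD]
    rw [hS2, trace_pow_comm, h1, ← CM_odd (gram L D) (gram R D) y r]
    unfold trace
    refine sum_congr rfl fun z _ => ?_
    rw [diag_apply, diagonal_mul]
    congr 1
    rw [← cc_eq]
    congr 1
    funext m e e'
    unfold GG
    by_cases hm : Even m
    · simp only [if_pos hm]
    · simp only [if_neg hm]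
  have htr0 : 0 ≤ (S ^ 2 ^ (j + 1)).trace := by
    have h1 : S ^ 2 ^ (j + 1) = S ^ 2 ^ j * (S ^ 2 ^ j)ᵀ := by
      rw [transpose_pow_eq S hST, ← pow_add]
      congr 1
      ring
    rw [h1]
    unfold trace
    refine sum_nonneg fun a _ => ?_
    exact dot_self_nonneg fun b => (S ^ 2 ^ j) a b
  calc (∑ e, y e * (u (L e) * u' (R e))) ^ (2 * 2 ^ (j + 1))
      = (((Mᵀ *ᵥ x) ⬝ᵥ x') ^ 2) ^ 2 ^ (j + 1) := by rw [hF, pow_mul]
    _ ≤ ((x ⬝ᵥ (S *ᵥ x)) * (x' ⬝ᵥ x')) ^ 2 ^ (j + 1) := by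
        refine pow_le_pow_left₀ (sq_nonneg _) ?_ _
        rw [← hq]
        exact dot_sq_le _ _
    _ = (x ⬝ᵥ (S *ᵥ x)) ^ 2 ^ (j + 1) * (x' ⬝ᵥ x') ^ 2 ^ (j + 1) := mul_pow _ _ _
    _ ≤ ((x ⬝ᵥ x) ^ 2 ^ (j + 1) * (S ^ 2 ^ (j + 1)).trace) * (x' ⬝ᵥ x') ^ 2 ^ (j + 1) :=
        mul_le_mul_of_nonneg_right (pow_le_trace S hST x h0 j)
          (pow_nonneg (dot_self_nonneg _) _)
    _ = ((x ⬝ᵥ x) * (x' ⬝ᵥ x')) ^ 2 ^ (j + 1) * (S ^ 2 ^ (j + 1)).trace := by
        rw [mul_pow]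
        ring
    _ ≤ _ := by
        rw [← htr]
        refine mul_le_mul_of_nonneg_right ?_ htr0
        refine pow_le_pow_left₀ (mul_nonneg (dot_self_nonneg _) (dot_self_nonneg _)) ?_ _
        refine mul_le_mul hxx hxx' (dot_self_nonneg _) ?_
        positivity

end Main

end Pool.Agent.Lib_helper81.KSW
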