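import Pool.Agent.Lib_helper81.KSW.Linear

/-!
# Randomized cell-probe data structures for `k`-set disjointness
-/

set_option autoImplicit false

namespace Pool.Agent.Lib_helper81.KSW

open Finset

/-- An adaptive query algorithm: it answers, or it probes a cell and continues with the content. -/
inductive Alg (S w : ℕ) : Type
  | answer (b : Bool) : Alg S w
  | probe (c : Fin S) (next : Fin (2 ^ w) → Alg S w) : Alg S w

/-- the answer on the memory `M` -/
def Alg.run {S w : ℕ} (M : Fin S → Fin (2 ^ w)) : Alg S w → Bool
  | .answer b => b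
  | .probe c next => (next (M c)).run M

/-- at most `T` probes -/
def Alg.Within {S w : ℕ} : ℕ → Alg S w → Prop
  | _, .answer _ => True
  | 0, .probe _ _ => False
  | T + 1, .probe _ next => ∀ x, (next x).Within T

/-- A data structure with public coins for `k`-set disjointness on families of `N` sets (maybe
empty) in a universe of `N` elements, of total size at most `N`: `R` equally likely random
strings; `S` cells of `w` bits, an arbitrary function of the random string and the family; for `k`
different indices an adaptive algorithm with at most `T` probes that decides with probability at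
least `1 / 2 + γ` whether no element lies in all `k` sets. -/
structure Scheme (k N S w T : ℕ) (γ : ℝ) where
  R : ℕ
  pos : 0 < R
  mem : Fin R → (Fin N → Finset (Fin N)) → Fin S → Fin (2 ^ w)
  alg : Fin R → (Fin k → Fin N) → Alg S w
  within : ∀ r q, (alg r q).Within T
  correct : ∀ F : Fin N → Finset (Fin N), ∑ i, (F i).card ≤ N →
    ∀ q : Fin k → Fin N, Function.Injective q →
      (1 / 2 + γ) * R ≤ (univ.filter fun r =>
        ((alg r q).run (mem r F) = true ↔ ∀ x, ¬ ∀ i, x ∈ F (q i))).card

/-! ### decomposition of an algorithm -/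

section Decomp

variable {S w : ℕ}

/-- the addresses along a sequence of contents -/
def addr (c0 : Fin S) : (T : ℕ) → Alg S w → (Fin T → Fin (2 ^ w)) → Fin T → Fin S
  | 0, _, _ => Fin.elim0
  | _ + 1, .answer _, _ => fun _ => c0
  | T + 1, .probe c next, v => Fin.cons c (addr c0 T (next (v 0)) (Fin.tail v))

/-- the answer along a sequence of contents -/
def out : (T : ℕ) → Alg S w → (Fin T → Fin (2 ^ w)) → Bool
  | _, .answer b, _ => b
  | 0, .probe _ _, _ => false
  | T + 1, .probe _ next, v => out T (next (v 0)) (Fin.tail v)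

theorem path (c0 : Fin S) (M : Fin S → Fin (2 ^ w)) (T : ℕ) : ∀ a : Alg S w, a.Within T →
    ∃ v0 : Fin T → Fin (2 ^ w), (∀ v, (∀ r, M (addr c0 T a v r) = v r) ↔ v = v0) ∧
      out T a v0 = a.run M := by
  induction T with
  | zero =>
    intro a ha
    cases a with
    | answer b =>
      exact ⟨Fin.elim0, fun v => ⟨fun _ => funext fun i => i.elim0, fun _ i => i.elim0⟩, rfl⟩
    | probe c next => exact absurd ha id
  | succ T ih =>
    intro a ha
    cases a with
    | answer b =>
      refine ⟨fun _ => M c0, fun v => ⟨fun h => funext fun i => (h i).symm, fun h i => ?_⟩, rfl⟩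
      rw [h]
      rfl
    | probe c next =>
      obtain ⟨v1, h1, h2⟩ := ih (next (M c)) (ha (M c))
      refine ⟨Fin.cons (M c) v1, fun v => ?_, ?_⟩
      · rw [Fin.forall_fin_succ]
        have h3 : addr c0 (T + 1) (.probe c next) v =
          Fin.cons c (addr c0 T (next (v 0)) (Fin.tail v)) := rfl
        rw [h3, Fin.cons_zero]
        simp only [Fin.cons_succ]
        constructor
        · rintro ⟨h4, h5⟩
          rw [← h4] at h5
          have h6 := (h1 (Fin.tail v)).1 h5
          rw [← Fin.cons_self_tail v, h6, ← h4]
        · intro h4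
          have h5 : v 0 = M c := by rw [h4, Fin.cons_zero]
          have h6 : Fin.tail v = v1 := by rw [h4, Fin.tail_cons]
          refine ⟨h5.symm, ?_⟩
          rw [h5]
          exact (h1 (Fin.tail v)).2 h6
      · have h3 : out (T + 1) (.probe c next) (Fin.cons (M c) v1 : Fin (T + 1) → Fin (2 ^ w)) =
            out T (next ((Fin.cons (M c) v1 : Fin (T + 1) → Fin (2 ^ w)) 0))
              (Fin.tail (Fin.cons (M c) v1 : Fin (T + 1) → Fin (2 ^ w))) := rfl
        rw [h3, Fin.cons_zero, Fin.tail_cons, h2]
        rfl

theorem within_mono {T T' : ℕ} (h : T ≤ T') (a : Alg S w) (ha : a.Within T) : a.Within T' := by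
  induction T generalizing T' a with
  | zero =>
    cases a with
    | answer b => cases T' <;> trivial
    | probe c next => exact absurd ha id
  | succ T ih =>
    cases a with
    | answer b => cases T' <;> trivial
    | probe c next =>
      cases T' with
      | zero => omega
      | succ T' => exact fun x => ih (by omega) (next x) (ha x)

/-- the answer as a sum over the sequences of contents -/
theorem decomp (c0 : Fin S) (M : Fin S → Fin (2 ^ w)) (t : ℕ) (a : Alg S w)
    (ha : a.Within (t + t)) :
    sgn (a.run M) = ∑ v : Fin (t + t) → Fin (2 ^ w), sgn (out (t + t) a v) *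
      ((∏ i : Fin t, if M (addr c0 (t + t) a v (Fin.castAdd t i)) = v (Fin.castAdd t i)
          then (1 : ℝ) else 0) *
        ∏ i : Fin t, if M (addr c0 (t + t) a v (Fin.natAdd t i)) = v (Fin.natAdd t i)
          then (1 : ℝ) else 0) := by
  classical
  obtain ⟨v0, h1, h2⟩ := path c0 M (t + t) a ha
  have h3 : ∀ v : Fin (t + t) → Fin (2 ^ w),
      ((∏ i : Fin t, if M (addr c0 (t + t) a v (Fin.castAdd t i)) = v (Fin.castAdd t i)
          then (1 : ℝ) else 0) *
        ∏ i : Fin t, if M (addr c0 (t + t) a v (Fin.natAdd t i)) = v (Fin.natAdd t i)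
          then (1 : ℝ) else 0) = if v = v0 then 1 else 0 := by
    intro v
    rw [← Fin.prod_univ_add
      (f := fun i => if M (addr c0 (t + t) a v i) = v i then (1 : ℝ) else 0)]
    by_cases hv : v = v0
    · rw [if_pos hv]
      refine prod_eq_one fun i _ => ?_
      rw [if_pos ((h1 v).2 hv i)]
    · rw [if_neg hv]
      have h4 : ¬ ∀ r, M (addr c0 (t + t) a v r) = v r := fun h => hv ((h1 v).1 h)
      push Not at h4
      obtain ⟨r, hr⟩ := h4
      exact prod_eq_zero (mem_univ r) (if_neg hr)
  simp only [h3]
  rw [sum_eq_single v0]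
  · rw [if_pos rfl, mul_one, h2]
  · intro v _ hv
    rw [if_neg hv, mul_zero]
  · intro h
    exact absurd (mem_univ _) h

end Decomp

/-! ### the instances -/

section Inst

variable {k n s N : ℕ}

/-- the index of the set with label `x (j, i)` -/
def idx (hN : k * n ≤ N) (p : Fin k × Fin n) : Fin N := Fin.castLE hN (finProdFinEquiv p)

theorem idx_inj (hN : k * n ≤ N) : Function.Injective (idx (k := k) (n := n) hN) := by
  intro p p' h
  unfold idx at h
  exact finProdFinEquiv.injective (Fin.castLE_injective hN h)

/-- the element of the universe with a given label tuple -/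
def elt (hs : s ^ k ≤ N) (z : Fin k → Fin s) : Fin N := Fin.castLE hs (finFunctionFinEquiv z)

theorem elt_inj (hs : s ^ k ≤ N) : Function.Injective (elt (k := k) (s := s) hs) := by
  intro p p' h
  unfold elt at h
  exact finFunctionFinEquiv.injective (Fin.castLE_injective hs h)

open Classical in
/-- the sets of the instance -/
noncomputable def fam (hN : k * n ≤ N) (hs : s ^ k ≤ N) (d : Dat k n s) :
    Fin N → Finset (Fin N) := fun a =>
  (univ.filter fun z : Fin k → Fin s => d.1 z = true ∧
    ∃ p : Fin k × Fin n, idx hN p = a ∧ z p.1 = d.2 p).map ⟨elt hs, elt_inj hs⟩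

open Classical in
theorem card_slice (j : Fin k) (a : Fin s) :
    (univ.filter fun z : Fin k → Fin s => z j = a).card = s ^ (k - 1) := by
  have h : (univ.filter fun z : Fin k → Fin s => z j = a) =
      Fintype.piFinset (Function.update (fun _ : Fin k => (univ : Finset (Fin s))) j
        ({a} : Finset (Fin s))) := by
    ext z
    rw [mem_filter, Fintype.mem_piFinset]
    constructor
    · intro h1 i
      by_cases hi : i = j
      · subst hi
        rw [Function.update_self, mem_singleton]
        exact h1.2
      · rw [Function.update_of_ne hi]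
        exact mem_univ _
    · intro h1
      have h2 := h1 j
      rw [Function.update_self, mem_singleton] at h2
      exact ⟨mem_univ _, h2⟩
  rw [h, Fintype.card_piFinset, ← mul_prod_erase univ _ (mem_univ j), Function.update_self,
    card_singleton, one_mul]
  rw [prod_congr rfl (g := fun _ => s) fun i hi => by
    rw [Function.update_of_ne (ne_of_mem_erase hi), card_univ, Fintype.card_fin]]
  rw [prod_const, card_erase_of_mem (mem_univ j), card_univ, Fintype.card_fin]

theorem fam_card (hN : k * n ≤ N) (hs : s ^ k ≤ N) (d : Dat k n s) :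
    ∑ a, (fam hN hs d a).card ≤ k * n * s ^ (k - 1) := by
  classical
  have h1 : ∀ a, (fam hN hs d a).card ≤
      ∑ p : Fin k × Fin n, if idx hN p = a then s ^ (k - 1) else 0 := by
    intro a
    unfold fam
    rw [card_map]
    by_cases ha : ∃ p, idx hN p = a
    · obtain ⟨p, hp⟩ := ha
      have h2 : (if idx hN p = a then s ^ (k - 1) else 0) ≤
          ∑ p : Fin k × Fin n, if idx hN p = a then s ^ (k - 1) else 0 :=
        single_le_sum (f := fun p : Fin k × Fin n => if idx hN p = a then s ^ (k - 1) else 0)
          (fun _ _ => Nat.zero_le _) (mem_univ p)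
      refine le_trans ?_ h2
      rw [if_pos hp, ← card_slice p.1 (d.2 p)]
      refine card_le_card fun z hz => ?_
      rw [mem_filter] at hz ⊢
      obtain ⟨p', hp', hz'⟩ := hz.2.2
      have h3 : p' = p := idx_inj hN (hp'.trans hp.symm)
      rw [← h3]
      exact ⟨mem_univ _, hz'⟩
    · rw [filter_eq_empty_iff.2]
      · simp
      · rintro z - ⟨-, p, hp, -⟩
        exact ha ⟨p, hp⟩
  refine (sum_le_sum fun a _ => h1 a).trans ?_
  rw [sum_comm]
  simp [Fintype.card_prod, Fintype.card_fin]

/-- the query of the data structure for a query of the instance -/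
def qry (hN : k * n ≤ N) (e : Fin k → Fin n) : Fin k → Fin N := fun j => idx hN (j, e j)

theorem qry_inj (hN : k * n ≤ N) (e : Fin k → Fin n) : Function.Injective (qry hN e) := by
  intro j j' h
  exact (Prod.ext_iff.1 (idx_inj hN h)).1

theorem fam_disj (hk : 0 < k) (hN : k * n ≤ N) (hs : s ^ k ≤ N) (d : Dat k n s)
    (e : Fin k → Fin n) :
    (∀ x, ¬ ∀ i, x ∈ fam hN hs d (qry hN e i)) ↔ d.1 (lab d.2 e) = false := by
  classical
  have h1 : (∃ x, ∀ i, x ∈ fam hN hs d (qry hN e i)) ↔ d.1 (lab d.2 e) = true := by
    constructor
    · rintro ⟨x, hx⟩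
      have h2 : ∀ i, ∃ z : Fin k → Fin s, elt hs z = x ∧ d.1 z = true ∧ z i = lab d.2 e i := by
        intro i
        have h3 := hx i
        unfold fam at h3
        rw [mem_map] at h3
        obtain ⟨z, hz, hzx⟩ := h3
        rw [mem_filter] at hz
        obtain ⟨p, hp, hz'⟩ := hz.2.2
        have h4 : p = (i, e i) := idx_inj hN hp
        rw [h4] at hz'
        exact ⟨z, hzx, hz.2.1, hz'⟩
      obtain ⟨z, hz, hz1, -⟩ := h2 ⟨0, hk⟩
      have h3 : z = lab d.2 e := by
        funext i
        obtain ⟨z', hz', -, hz3⟩ := h2 i
        rw [elt_inj hs (hz.trans hz'.symm)]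
        exact hz3
      rw [← h3]
      exact hz1
    · intro h
      refine ⟨elt hs (lab d.2 e), fun i => ?_⟩
      unfold fam
      rw [mem_map]
      refine ⟨lab d.2 e, ?_, rfl⟩
      rw [mem_filter]
      exact ⟨mem_univ _, h, (i, e i), rfl, rfl⟩
  rw [← not_iff_not, ← not_iff_not]
  simp only [not_not]
  rw [← Bool.not_eq_true, ← h1]
  push Not
  rfl

end Inst

end Pool.Agent.Lib_helper81.KSW
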