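import Mathlib

/-!
# Random signs of label tuples

A random function `f` on label tuples, random labels `x`; the sign of the query `e` is
`f (lab x e)`. The expected product of the signs of a list of queries is at most the probability
that every label tuple occurs an even number of times.
-/

set_option autoImplicit false

namespace Pool.Agent.Lib_helper81.KSW

open Finset

/-- the sign of a Boolean -/
def sgn (b : Bool) : ℝ := if b then 1 else -1

theorem sgn_not (b : Bool) : sgn (!b) = - sgn b := by
  cases b <;> simp [sgn]

theorem abs_sgn (b : Bool) : |sgn b| = 1 := by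
  cases b <;> simp [sgn]

theorem sgn_mul_self (b : Bool) : sgn b * sgn b = 1 := by
  cases b <;> simp [sgn]

section Signs

variable {Z : Type*} [DecidableEq Z]

omit [DecidableEq Z] in
theorem abs_prod_sgn (f : Z → Bool) (l : List Z) : |(l.map fun z => sgn (f z)).prod| = 1 := by
  induction l with
  | nil => simp
  | cons a l ih => rw [List.map_cons, List.prod_cons, abs_mul, ih, abs_sgn, one_mul]

theorem prod_flip (f : Z → Bool) (z : Z) (l : List Z) :
    (l.map fun y => sgn (Function.update f z (!(f z)) y)).prod =
      (-1) ^ l.count z * (l.map fun y => sgn (f y)).prod := by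
  induction l with
  | nil => simp
  | cons a l ih =>
    rw [List.map_cons, List.prod_cons, ih, List.map_cons, List.prod_cons]
    by_cases h : a = z
    · subst h
      rw [Function.update_self, sgn_not, List.count_cons_self, pow_succ]
      ring
    · rw [Function.update_of_ne h, List.count_cons_of_ne h]
      ring

theorem sum_sgn_odd [Fintype Z] (l : List Z) (z : Z) (hz : ¬ Even (l.count z)) :
    ∑ f : Z → Bool, (l.map fun y => sgn (f y)).prod = 0 := by
  have h : ∑ f : Z → Bool, (l.map fun y => sgn (f y)).prod =
      ∑ f : Z → Bool, (l.map fun y => sgn (Function.update f z (!(f z)) y)).prod := by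
    have hinv : Function.Involutive (fun f : Z → Bool => Function.update f z (!(f z))) := by
      intro f
      simp
    exact (Equiv.sum_comp hinv.toPerm fun f : Z → Bool => (l.map fun y => sgn (f y)).prod).symm
  have h2 : ∑ f : Z → Bool, (l.map fun y => sgn (Function.update f z (!(f z)) y)).prod =
      - ∑ f : Z → Bool, (l.map fun y => sgn (f y)).prod := by
    rw [← sum_neg_distrib]
    refine sum_congr rfl fun f _ => ?_
    rw [prod_flip, Odd.neg_one_pow (Nat.not_even_iff_odd.1 hz)]
    ring
  linarith

open Classical in
theorem sum_sgn_le [Fintype Z] (l : List Z) :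
    |∑ f : Z → Bool, (l.map fun y => sgn (f y)).prod| ≤
      if ∀ z, Even (l.count z) then 2 ^ Fintype.card Z else 0 := by
  split_ifs with h
  · refine (abs_sum_le_sum_abs _ _).trans ?_
    simp only [abs_prod_sgn]
    simp
  · push Not at h
    obtain ⟨z, hz⟩ := h
    rw [sum_sgn_odd l z (by simpa using hz), abs_zero]

/-- number of repetitions in a list -/
def rep : List Z → ℕ
  | [] => 0
  | a :: l => rep l + if a ∈ l then 1 else 0

theorem rep_cons (a : Z) (l : List Z) : rep (a :: l) = rep l + if a ∈ l then 1 else 0 := rfl

theorem rep_add (l : List Z) : rep l + l.toFinset.card = l.length := by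
  induction l with
  | nil => rfl
  | cons a l ih =>
    rw [rep_cons, List.toFinset_cons, List.length_cons]
    by_cases h : a ∈ l
    · rw [if_pos h, insert_eq_of_mem (List.mem_toFinset.2 h)]
      omega
    · rw [if_neg h, card_insert_of_notMem (fun h' => h (List.mem_toFinset.1 h'))]
      omega

theorem length_le_rep (l : List Z) (h : ∀ z, Even (l.count z)) : l.length ≤ 2 * rep l := by
  have h1 := rep_add l
  have h2 : 2 * l.toFinset.card ≤ l.length := by
    rw [← List.sum_toFinset_count_eq_length l, mul_comm, ← smul_eq_mul]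
    refine card_nsmul_le_sum _ _ _ fun z hz => ?_
    have h3 : 0 < l.count z := List.count_pos_iff.2 (List.mem_toFinset.1 hz)
    obtain ⟨c, hc⟩ := h z
    omega
  omega

end Signs

/-! ### labels -/

section Labels

variable {k n s : ℕ}

/-- the label tuple of a query -/
def lab (x : Fin k × Fin n → Fin s) (e : Fin k → Fin n) : Fin k → Fin s := fun j => x (j, e j)

/-- `∑_x θ ^ (number of repeated label tuples)` -/
noncomputable def Th (s : ℕ) (θ : ℝ) (H : List (Fin k → Fin n)) : ℝ :=
  ∑ x : Fin k × Fin n → Fin s, θ ^ rep (H.map (lab x))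

theorem Th_nonneg {θ : ℝ} (hθ : 1 ≤ θ) (H : List (Fin k → Fin n)) : 0 ≤ Th s θ H :=
  sum_nonneg fun _ _ => pow_nonneg (zero_le_one.trans hθ) _

theorem sum_resample {V : Type*} [Fintype V] [DecidableEq V] (y : V) (F : (V → Fin s) → ℝ) :
    ∑ x : V → Fin s, ∑ a : Fin s, F (Function.update x y a) = s * ∑ x : V → Fin s, F x := by
  rw [← Fintype.sum_prod_type']
  have h : ∑ p : (V → Fin s) × Fin s, F (Function.update p.1 y p.2) =
      ∑ p : (V → Fin s) × Fin s, F p.1 := by
    have hinv : Function.Involutive
        (fun p : (V → Fin s) × Fin s => (Function.update p.1 y p.2, p.1 y)) := by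
      intro p
      simp
    exact Equiv.sum_comp hinv.toPerm fun p : (V → Fin s) × Fin s => F p.1
  rw [h, Fintype.sum_prod_type]
  simp only [sum_const, card_univ, Fintype.card_fin, nsmul_eq_mul]
  rw [mul_sum]

theorem resample {V : Type*} [Fintype V] [DecidableEq V] (y y' : V) (hy : y' ≠ y)
    (g : (V → Fin s) → ℝ) (hg : ∀ x a, g (Function.update x y a) = g x) :
    s * ∑ x : V → Fin s, g x * (if x y = x y' then 1 else 0) = ∑ x : V → Fin s, g x := by
  rw [← sum_resample y]
  refine sum_congr rfl fun x _ => ?_
  simp only [hg, Function.update_self, Function.update_of_ne hy]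
  rw [sum_eq_single (x y')]
  · simp
  · intro b _ hb
    rw [if_neg hb, mul_zero]
  · intro h
    exact absurd (mem_univ _) h

theorem Th_old {θ : ℝ} (hθ : 1 ≤ θ) (e : Fin k → Fin n) (H : List (Fin k → Fin n)) :
    Th s θ (e :: H) ≤ θ * Th s θ H := by
  unfold Th
  rw [mul_sum]
  refine sum_le_sum fun x _ => ?_
  rw [List.map_cons, rep_cons, ← pow_succ']
  refine pow_le_pow_right₀ hθ ?_
  split_ifs <;> omega

theorem Th_new {θ : ℝ} (hθ : 1 ≤ θ) (hs : 0 < s) (e : Fin k → Fin n)
    (H : List (Fin k → Fin n)) (j : Fin k) (hj : ∀ e' ∈ H, e' j ≠ e j) :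
    Th s θ (e :: H) ≤ (1 + (θ - 1) * (H.length / s)) * Th s θ H := by
  classical
  have hs' : (0 : ℝ) < s := by exact_mod_cast hs
  have hθ0 : 0 ≤ θ := zero_le_one.trans hθ
  -- the number of repetitions of the old queries does not depend on the new label
  have hind : ∀ (x : Fin k × Fin n → Fin s) (a : Fin s),
      H.map (lab (Function.update x (j, e j) a)) = H.map (lab x) := by
    intro x a
    refine List.map_congr_left fun e' he' => ?_
    funext i
    unfold lab
    by_cases hi : i = j
    · subst hi
      rw [Function.update_of_ne]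
      intro h
      exact hj e' he' (by simpa using h)
    · rw [Function.update_of_ne]
      intro h
      exact hi (by simpa using (Prod.ext_iff.1 h).1)
  have hstep : ∀ e' ∈ H, ∑ x : Fin k × Fin n → Fin s, θ ^ rep (H.map (lab x)) *
      (if x (j, e j) = x (j, e' j) then 1 else 0) = Th s θ H / s := by
    intro e' he'
    rw [eq_div_iff hs'.ne', mul_comm]
    refine resample (j, e j) (j, e' j) ?_ (fun x => θ ^ rep (H.map (lab x))) ?_
    · intro h
      exact hj e' he' (by simpa using h)
    · intro x a
      simp only [hind]
  have hpt : ∀ x : Fin k × Fin n → Fin s, θ ^ rep ((e :: H).map (lab x)) ≤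
      θ ^ rep (H.map (lab x)) + (θ - 1) * (H.map fun e' => θ ^ rep (H.map (lab x)) *
        (if x (j, e j) = x (j, e' j) then (1 : ℝ) else 0)).sum := by
    intro x
    have hnn : 0 ≤ (H.map fun e' => θ ^ rep (H.map (lab x)) *
        (if x (j, e j) = x (j, e' j) then (1 : ℝ) else 0)).sum := by
      refine List.sum_nonneg fun a ha => ?_
      obtain ⟨e', -, rfl⟩ := List.mem_map.1 ha
      split_ifs <;> positivity
    rw [List.map_cons, rep_cons]
    split_ifs with h
    · obtain ⟨e', he', heq⟩ := List.mem_map.1 h
      have h1 : θ ^ rep (H.map (lab x)) ≤ (H.map fun e' => θ ^ rep (H.map (lab x)) *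
        (if x (j, e j) = x (j, e' j) then (1 : ℝ) else 0)).sum := by
        refine List.single_le_sum (l := H.map fun e' => θ ^ rep (H.map (lab x)) *
          (if x (j, e j) = x (j, e' j) then (1 : ℝ) else 0)) ?_ _ ?_
        · intro a ha
          obtain ⟨e', -, rfl⟩ := List.mem_map.1 ha
          split_ifs <;> positivity
        · refine List.mem_map.2 ⟨e', he', ?_⟩
          have h2 : x (j, e j) = x (j, e' j) := (congrFun heq j).symm
          rw [if_pos h2, mul_one]
      rw [pow_succ]
      have h3 := mul_le_mul_of_nonneg_left h1 (sub_nonneg.2 hθ)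
      linarith
    · rw [add_zero]
      have h3 := mul_nonneg (sub_nonneg.2 hθ) hnn
      linarith
  have hsum : ∑ x : Fin k × Fin n → Fin s, (H.map fun e' => θ ^ rep (H.map (lab x)) *
      (if x (j, e j) = x (j, e' j) then (1 : ℝ) else 0)).sum = H.length * (Th s θ H / s) := by
    have h1 : ∀ H' : List (Fin k → Fin n), (∀ e' ∈ H', e' ∈ H) →
        ∑ x : Fin k × Fin n → Fin s, (H'.map fun e' => θ ^ rep (H.map (lab x)) *
          (if x (j, e j) = x (j, e' j) then (1 : ℝ) else 0)).sum =
        H'.length * (Th s θ H / s) := by
      intro H' hH'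
      induction H' with
      | nil => simp
      | cons a H' ih =>
        simp only [List.map_cons, List.sum_cons, sum_add_distrib]
        rw [hstep a (hH' a List.mem_cons_self),
          ih fun e' he' => hH' e' (List.mem_cons_of_mem _ he')]
        rw [List.length_cons]
        push_cast
        ring
    exact h1 H fun _ h => h
  calc Th s θ (e :: H) ≤ ∑ x : Fin k × Fin n → Fin s, (θ ^ rep (H.map (lab x)) +
        (θ - 1) * (H.map fun e' => θ ^ rep (H.map (lab x)) *
        (if x (j, e j) = x (j, e' j) then (1 : ℝ) else 0)).sum) := sum_le_sum fun x _ => hpt x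
    _ = Th s θ H + (θ - 1) * (H.length * (Th s θ H / s)) := by
        rw [sum_add_distrib, ← mul_sum, hsum]
        rfl
    _ = (1 + (θ - 1) * (H.length / s)) * Th s θ H := by ring

end Labels

end Pool.Agent.Lib_helper81.KSW
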