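import Pool.Agent.Lib_helper81.KSW.Signs

/-!
# Walks of queries

The expected signed number of closed walks: a step to a query with a new vertex contributes
`m / s` to the number of repetitions of label tuples, and there are at most `m ^ k` queries
without new vertices.
-/

set_option autoImplicit false

namespace Pool.Agent.Lib_helper81.KSW

open Finset

variable {k n s : ℕ}

/-- weights of one step of a walk -/
structure StepW (D : ℝ) (g : (Fin k → Fin n) → ℝ) : Prop where
  nonneg : ∀ e, 0 ≤ g e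
  sum : ∑ e, g e ≤ 1
  le : ∀ e, g e ≤ 1 / D

/-- all vertices of `e` are vertices of queries in `H` -/
def Old (H : List (Fin k → Fin n)) (e : Fin k → Fin n) : Prop := ∀ j, ∃ e' ∈ H, e' j = e j

open Classical in
theorem card_old (H : List (Fin k → Fin n)) :
    (univ.filter fun e => Old H e).card ≤ H.length ^ k := by
  have h : (univ.filter fun e => Old H e) ⊆
      Fintype.piFinset fun j : Fin k => (H.map fun e' => e' j).toFinset := by
    intro e he
    rw [mem_filter] at he
    rw [Fintype.mem_piFinset]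
    intro j
    obtain ⟨e', he', h⟩ := he.2 j
    rw [List.mem_toFinset, List.mem_map]
    exact ⟨e', he', h⟩
  refine (card_le_card h).trans ?_
  rw [Fintype.card_piFinset]
  refine (prod_le_prod' (g := fun _ => H.length) fun j _ => ?_).trans ?_
  · exact (List.toFinset_card_le _).trans (List.length_map _).le
  · rw [prod_const, card_univ, Fintype.card_fin]

theorem step {θ : ℝ} (hθ : 1 ≤ θ) (hs : 0 < s) {D : ℝ} (hD : 0 < D) {m : ℕ}
    (H : List (Fin k → Fin n)) (hH : H.length ≤ m) (g : (Fin k → Fin n) → ℝ)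
    (hg : StepW D g) :
    ∑ e, g e * Th s θ (e :: H) ≤
      (1 + (θ - 1) * (m / s + (m : ℝ) ^ k / D)) * Th s θ H := by
  classical
  have hs' : (0 : ℝ) < s := by exact_mod_cast hs
  have hT := Th_nonneg (s := s) hθ H
  have hθ' : 0 ≤ θ - 1 := sub_nonneg.2 hθ
  have hm : (H.length : ℝ) ≤ m := by exact_mod_cast hH
  have hc : 0 ≤ 1 + (θ - 1) * ((m : ℝ) / s) := by positivity
  have hpt : ∀ e, g e * Th s θ (e :: H) ≤ g e * ((1 + (θ - 1) * ((m : ℝ) / s)) * Th s θ H) +
      (if Old H e then g e else 0) * ((θ - 1) * Th s θ H) := by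
    intro e
    split_ifs with h
    · have h1 := mul_le_mul_of_nonneg_left (Th_old (s := s) hθ e H) (hg.nonneg e)
      have h2 : 0 ≤ g e * ((θ - 1) * ((m : ℝ) / s) * Th s θ H) := by
        have := hg.nonneg e
        positivity
      linarith
    · rw [zero_mul, add_zero]
      refine mul_le_mul_of_nonneg_left ?_ (hg.nonneg e)
      have h' : ∃ j, ∀ e' ∈ H, e' j ≠ e j := by
        unfold Old at h
        push Not at h
        exact h
      obtain ⟨j, hj⟩ := h'
      refine (Th_new hθ hs e H j hj).trans ?_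
      refine mul_le_mul_of_nonneg_right ?_ hT
      gcongr
  refine (sum_le_sum fun e _ => hpt e).trans ?_
  rw [sum_add_distrib, ← sum_mul, ← sum_mul]
  have h1 : (∑ e, g e) * ((1 + (θ - 1) * ((m : ℝ) / s)) * Th s θ H) ≤
      1 * ((1 + (θ - 1) * ((m : ℝ) / s)) * Th s θ H) :=
    mul_le_mul_of_nonneg_right hg.sum (by positivity)
  have h2 : ∑ e, (if Old H e then g e else 0) ≤ (m : ℝ) ^ k / D := by
    rw [← sum_filter]
    refine (sum_le_card_nsmul _ _ (1 / D) fun e _ => hg.le e).trans ?_
    rw [nsmul_eq_mul, mul_one_div]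
    refine div_le_div_of_nonneg_right ?_ hD.le
    have h3 : (((univ.filter fun e => Old H e).card : ℕ) : ℝ) ≤ ((H.length ^ k : ℕ) : ℝ) := by
      exact_mod_cast card_old H
    refine h3.trans ?_
    push_cast
    gcongr
  have h3 := mul_le_mul_of_nonneg_right h2 (mul_nonneg hθ' hT)
  linarith

/-- nested sums over the continuations of a walk, closed at `z` -/
noncomputable def nest (G : ℕ → (Fin k → Fin n) → (Fin k → Fin n) → ℝ) (z : Fin k → Fin n)
    (φ : List (Fin k → Fin n) → ℝ) : ℕ → (Fin k → Fin n) → List (Fin k → Fin n) → ℝ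
  | 0, e, H => G 0 e z * φ H
  | m + 1, e, H => ∑ e', G (m + 1) e e' * nest G z φ m e' (e' :: H)

theorem nest_zero (G : ℕ → (Fin k → Fin n) → (Fin k → Fin n) → ℝ) (z : Fin k → Fin n)
    (φ : List (Fin k → Fin n) → ℝ) (e : Fin k → Fin n) (H : List (Fin k → Fin n)) :
    nest G z φ 0 e H = G 0 e z * φ H := rfl

theorem nest_succ (G : ℕ → (Fin k → Fin n) → (Fin k → Fin n) → ℝ) (z : Fin k → Fin n)
    (φ : List (Fin k → Fin n) → ℝ) (m : ℕ) (e : Fin k → Fin n) (H : List (Fin k → Fin n)) :
    nest G z φ (m + 1) e H = ∑ e', G (m + 1) e e' * nest G z φ m e' (e' :: H) := rfl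

theorem nest_sum {ι : Type*} (I : Finset ι)
    (G : ℕ → (Fin k → Fin n) → (Fin k → Fin n) → ℝ) (z : Fin k → Fin n)
    (φ : ι → List (Fin k → Fin n) → ℝ) (m : ℕ) :
    ∀ (e : Fin k → Fin n) (H : List (Fin k → Fin n)),
      ∑ i ∈ I, nest G z (φ i) m e H = nest G z (fun H => ∑ i ∈ I, φ i H) m e H := by
  induction m with
  | zero =>
    intro e H
    simp only [nest_zero]
    rw [← mul_sum]
  | succ m ih =>
    intro e H
    simp only [nest_succ]
    rw [sum_comm]
    refine sum_congr rfl fun e' _ => ?_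
    rw [← mul_sum, ih]

theorem nest_le {θ : ℝ} (hθ : 1 ≤ θ) (hs : 0 < s) {D : ℝ} (hD : 0 < D) {M : ℕ}
    (G : ℕ → (Fin k → Fin n) → (Fin k → Fin n) → ℝ) (hG : ∀ m e, StepW D (G m e))
    (z : Fin k → Fin n) {ω : ℝ} (hω : ∀ e, G 0 e z ≤ ω) {C : ℝ} (hC : 0 ≤ C)
    (φ : List (Fin k → Fin n) → ℝ) (hφ : ∀ H, H.length = M → φ H ≤ C * Th s θ H) (m : ℕ) :
    ∀ (e : Fin k → Fin n) (H : List (Fin k → Fin n)), H.length + m = M →
      nest G z φ m e H ≤
        ω * (1 + (θ - 1) * (M / s + (M : ℝ) ^ k / D)) ^ m * (C * Th s θ H) := by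
  have hs' : (0 : ℝ) < s := by exact_mod_cast hs
  have hθ' : 0 ≤ θ - 1 := sub_nonneg.2 hθ
  have hb : 0 ≤ 1 + (θ - 1) * ((M : ℝ) / s + (M : ℝ) ^ k / D) := by positivity
  have hω0 : 0 ≤ ω := ((hG 0 z).nonneg z).trans (hω z)
  induction m with
  | zero =>
    intro e H hH
    rw [nest_zero, pow_zero, mul_one]
    have h1 := hφ H (by omega)
    have h2 : 0 ≤ C * Th s θ H := mul_nonneg hC (Th_nonneg hθ H)
    calc G 0 e z * φ H ≤ G 0 e z * (C * Th s θ H) :=
          mul_le_mul_of_nonneg_left h1 ((hG 0 e).nonneg z)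
      _ ≤ ω * (C * Th s θ H) := mul_le_mul_of_nonneg_right (hω e) h2
  | succ m ih =>
    intro e H hH
    rw [nest_succ]
    set b := 1 + (θ - 1) * ((M : ℝ) / s + (M : ℝ) ^ k / D) with hbdef
    calc ∑ e', G (m + 1) e e' * nest G z φ m e' (e' :: H)
        ≤ ∑ e', G (m + 1) e e' * (ω * b ^ m * (C * Th s θ (e' :: H))) := by
          refine sum_le_sum fun e' _ => ?_
          refine mul_le_mul_of_nonneg_left (ih e' (e' :: H) ?_) ((hG _ _).nonneg e')
          rw [List.length_cons]
          omega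
      _ = ω * b ^ m * C * ∑ e', G (m + 1) e e' * Th s θ (e' :: H) := by
          rw [mul_sum]
          refine sum_congr rfl fun e' _ => ?_
          ring
      _ ≤ ω * b ^ m * C * (b * Th s θ H) := by
          refine mul_le_mul_of_nonneg_left ?_ (by positivity)
          exact step hθ hs hD H (by omega) _ (hG _ _)
      _ = ω * b ^ (m + 1) * (C * Th s θ H) := by ring

/-- the data-dependent sums without the history -/
noncomputable def cc (G : ℕ → (Fin k → Fin n) → (Fin k → Fin n) → ℝ) (z : Fin k → Fin n)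
    (y : (Fin k → Fin n) → ℝ) : ℕ → (Fin k → Fin n) → ℝ
  | 0, e => G 0 e z
  | m + 1, e => ∑ e', G (m + 1) e e' * (y e' * cc G z y m e')

theorem nest_prod (G : ℕ → (Fin k → Fin n) → (Fin k → Fin n) → ℝ) (z : Fin k → Fin n)
    (y : (Fin k → Fin n) → ℝ) (m : ℕ) :
    ∀ (e : Fin k → Fin n) (H : List (Fin k → Fin n)),
      nest G z (fun H => (H.map y).prod) m e H = (H.map y).prod * cc G z y m e := by
  induction m with
  | zero =>
    intro e H
    rw [nest_zero, cc, mul_comm]
  | succ m ih =>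
    intro e H
    rw [nest_succ, cc, mul_sum]
    refine sum_congr rfl fun e' _ => ?_
    rw [ih, List.map_cons, List.prod_cons]
    ring

/-! ### the expectation over the data -/

/-- the data: a function on the label tuples and the labels -/
abbrev Dat (k n s : ℕ) : Type := ((Fin k → Fin s) → Bool) × (Fin k × Fin n → Fin s)

/-- the sign of a query -/
def eps (d : Dat k n s) (e : Fin k → Fin n) : ℝ := sgn (d.1 (lab d.2 e))

theorem sum_eps_le {θ : ℝ} (hθ : 1 ≤ θ) (q : ℕ) (H : List (Fin k → Fin n))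
    (hH : H.length = 2 * q) :
    |∑ d : Dat k n s, (H.map (eps d)).prod| ≤
      2 ^ Fintype.card (Fin k → Fin s) * (θ⁻¹ ^ q * Th s θ H) := by
  classical
  have hθ0 : 0 < θ := lt_of_lt_of_le one_pos hθ
  rw [Fintype.sum_prod_type_right]
  refine (abs_sum_le_sum_abs _ _).trans ?_
  unfold Th
  rw [mul_sum, mul_sum]
  refine sum_le_sum fun x _ => ?_
  have h1 : ∑ f : (Fin k → Fin s) → Bool, (H.map (eps (f, x))).prod =
      ∑ f : (Fin k → Fin s) → Bool, ((H.map (lab x)).map fun z => sgn (f z)).prod := by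
    refine sum_congr rfl fun f _ => ?_
    rw [List.map_map]
    rfl
  rw [h1]
  refine (sum_sgn_le (H.map (lab x))).trans ?_
  split_ifs with h
  · have h2 := length_le_rep (H.map (lab x)) h
    rw [List.length_map, hH] at h2
    have h3 : q ≤ rep (H.map (lab x)) := by omega
    have h4 : (1 : ℝ) ≤ θ⁻¹ ^ q * θ ^ rep (H.map (lab x)) := by
      rw [inv_pow, inv_mul_eq_div, le_div_iff₀ (pow_pos hθ0 _), one_mul]
      exact pow_le_pow_right₀ hθ h3
    have h5 : (0 : ℝ) < 2 ^ Fintype.card (Fin k → Fin s) := by positivity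
    exact le_mul_of_one_le_right h5.le h4
  · positivity

/-- the expected signed number of closed walks -/
theorem walk_bound {θ : ℝ} (hθ : 1 ≤ θ) (hs : 0 < s) {D : ℝ} (hD : 0 < D) {q : ℕ} (hq : 0 < q)
    (G : ℕ → (Fin k → Fin n) → (Fin k → Fin n) → ℝ) (hG : ∀ m e, StepW D (G m e))
    {P : ℝ} (ω : (Fin k → Fin n) → ℝ) (hω : ∀ e z, G 0 e z ≤ ω z) (hP : ∑ z, ω z ≤ P)
    (h : (Fin k → Fin n) → ℝ) (hh : ∀ e, |h e| ≤ 1) :
    ∑ d : Dat k n s, ∑ z, (h z * eps d z) *
        cc G z (fun e => h e * eps d e) (2 * q - 1) z ≤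
      P * (1 + (θ - 1) * ((2 * q : ℕ) / s + ((2 * q : ℕ) : ℝ) ^ k / D)) ^ (2 * q - 1) *
        θ⁻¹ ^ q * Fintype.card (Dat k n s) := by
  classical
  have hs' : (0 : ℝ) < s := by exact_mod_cast hs
  have hθ' : 0 ≤ θ - 1 := sub_nonneg.2 hθ
  have hθ0 : 0 < θ := lt_of_lt_of_le one_pos hθ
  set b := 1 + (θ - 1) * (((2 * q : ℕ) : ℝ) / s + ((2 * q : ℕ) : ℝ) ^ k / D) with hbdef
  have hb : 0 ≤ b := by positivity
  set K : ℝ := 2 ^ Fintype.card (Fin k → Fin s) with hK
  set φ : Dat k n s → List (Fin k → Fin n) → ℝ :=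
    fun d H => (H.map fun e => h e * eps d e).prod with hφ
  -- the products
  have hfac : ∀ (d : Dat k n s) (H : List (Fin k → Fin n)),
      φ d H = (H.map h).prod * (H.map (eps d)).prod := by
    intro d H
    simp only [hφ]
    induction H with
    | nil => simp
    | cons a H ih =>
      simp only [List.map_cons, List.prod_cons]
      rw [ih]
      ring
  have habs : ∀ H : List (Fin k → Fin n), |(H.map h).prod| ≤ 1 := by
    intro H
    induction H with
    | nil => simp
    | cons a H ih =>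
      rw [List.map_cons, List.prod_cons, abs_mul]
      exact mul_le_one₀ (hh a) (abs_nonneg _) ih
  have hφle : ∀ H : List (Fin k → Fin n), H.length = 2 * q →
      (fun H => ∑ d, φ d H) H ≤ K * θ⁻¹ ^ q * Th s θ H := by
    intro H hH
    have h1 : ∑ d, φ d H = (H.map h).prod * ∑ d : Dat k n s, (H.map (eps d)).prod := by
      rw [mul_sum]
      exact sum_congr rfl fun d _ => hfac d H
    change ∑ d, φ d H ≤ _
    rw [h1]
    refine (le_abs_self _).trans ?_
    rw [abs_mul]
    refine (mul_le_mul (habs H) (sum_eps_le hθ q H hH) (abs_nonneg _) zero_le_one).trans ?_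
    rw [one_mul, mul_assoc]
  have hTh1 : ∀ z : Fin k → Fin n, Th s θ [z] = Fintype.card (Fin k × Fin n → Fin s) := by
    intro z
    unfold Th
    simp [rep]
  calc ∑ d : Dat k n s, ∑ z, (h z * eps d z) * cc G z (fun e => h e * eps d e) (2 * q - 1) z
      = ∑ z, nest G z (fun H => ∑ d, φ d H) (2 * q - 1) z [z] := by
        rw [sum_comm]
        refine sum_congr rfl fun z _ => ?_
        rw [← nest_sum]
        refine sum_congr rfl fun d _ => ?_
        have h1 := nest_prod G z (fun e => h e * eps d e) (2 * q - 1) z [z]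
        simp only [List.map_cons, List.map_nil, List.prod_cons, List.prod_nil, mul_one] at h1
        exact h1.symm
    _ ≤ ∑ z, ω z * b ^ (2 * q - 1) * (K * θ⁻¹ ^ q * Th s θ [z]) := by
        refine sum_le_sum fun z _ => ?_
        refine nest_le hθ hs hD G hG z (fun e => hω e z) (by positivity) _ hφle (2 * q - 1) z [z] ?_
        rw [List.length_singleton]
        omega
    _ = (∑ z, ω z) * (b ^ (2 * q - 1) * θ⁻¹ ^ q * Fintype.card (Dat k n s)) := by
        rw [sum_mul]
        refine sum_congr rfl fun z _ => ?_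
        have h2 : Fintype.card ((Fin k → Fin s) → Bool) = 2 ^ Fintype.card (Fin k → Fin s) := by
          rw [Fintype.card_fun (α := Fin k → Fin s), Fintype.card_bool]
        rw [hTh1, Fintype.card_prod, hK, h2]
        push_cast
        ring
    _ ≤ P * (b ^ (2 * q - 1) * θ⁻¹ ^ q * Fintype.card (Dat k n s)) := by
        refine mul_le_mul_of_nonneg_right hP ?_
        positivity
    _ = _ := by ring

end Pool.Agent.Lib_helper81.KSW
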